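import Pool.Agent.BBW.Inst
import Pool.Agent.BBX.Slot
import Pool.Agent.BBX.RatGen

/-!
# Class functions of one point and of two points

If `F` is a class function on the product `Y ^ k` then it is a class function of the point in one slot,
of the points in two slots, and of the points in the slots of the first kind, when the other points are
fixed: apply the definition to the cycle `∑ τ, (Finsupp.single (φ' (v.map τ)) 1 - …)`, where `φ'` is the
morphism with the components of `φ` in these slots and constant components in the other slots (the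
coordinates `fun j => algebraMap ℂ F (p.rep j)` have the value `p`, `Cl_const`).
-/

set_option autoImplicit false

noncomputable section

namespace Pool.Agent.BBW

open Pool.Agent.BBX

open Pool.Agent.ZCyc Pool.Agent.BBM Pool.Agent.Dess Pool.Agent.TInc
open scoped LinearAlgebra.Projectivization Classical

variable {S₁ S₂ S₃ S₄ S₅ S₆ : Type} (Y : Fly S₁ S₂ S₃ S₄ S₅ S₆)

/-- class functions of one point of `Y s` -/
def Fly.Cl1 {s : S₁ ⊕ S₂ ⊕ S₃ ⊕ S₄ ⊕ S₅ ⊕ S₆} {W : Type} [AddCommGroup W] [Module ℂ W] (f : Y.P s → W) : Prop :=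
  ∀ (F : Type) [Field F] [Algebra ℂ F] [Algebra (RatFunc ℂ) F] [IsScalarTower ℂ (RatFunc ℂ) F]
    [FiniteDimensional (RatFunc ℂ) F] [IsGalois (RatFunc ℂ) F] (x : ∀ e : Y.E s, Y.J s e → F)
    (φ : Place ℂ F → Y.P s), (∀ v e, DCI57.IsValue v (x e) ((φ v).1 e)) → ∀ (a b : ℂ)
    (v w : Place ℂ F), v.Vanishes (algebraMap (RatFunc ℂ) F (RatFunc.X - RatFunc.C a)) →
    w.Vanishes (algebraMap (RatFunc ℂ) F (RatFunc.X - RatFunc.C b)) →
    ∑ τ : F ≃ₐ[RatFunc ℂ] F, (f (φ (v.map (τ.restrictScalars ℂ))) -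
      f (φ (w.map (τ.restrictScalars ℂ)))) = 0

/-- class functions of a point of `Y s` and a point of `Y s'` -/
def Fly.Cl2 {s s' : S₁ ⊕ S₂ ⊕ S₃ ⊕ S₄ ⊕ S₅ ⊕ S₆} {W : Type} [AddCommGroup W] [Module ℂ W]
    (f : Y.P s → Y.P s' → W) : Prop :=
  ∀ (F : Type) [Field F] [Algebra ℂ F] [Algebra (RatFunc ℂ) F] [IsScalarTower ℂ (RatFunc ℂ) F]
    [FiniteDimensional (RatFunc ℂ) F] [IsGalois (RatFunc ℂ) F] (x : ∀ e : Y.E s, Y.J s e → F)
    (x' : ∀ e : Y.E s', Y.J s' e → F) (φ : Place ℂ F → Y.P s) (φ' : Place ℂ F → Y.P s'),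
    (∀ v e, DCI57.IsValue v (x e) ((φ v).1 e)) → (∀ v e, DCI57.IsValue v (x' e) ((φ' v).1 e)) →
    ∀ (a b : ℂ) (v w : Place ℂ F),
    v.Vanishes (algebraMap (RatFunc ℂ) F (RatFunc.X - RatFunc.C a)) →
    w.Vanishes (algebraMap (RatFunc ℂ) F (RatFunc.X - RatFunc.C b)) →
    ∑ τ : F ≃ₐ[RatFunc ℂ] F,
      (f (φ (v.map (τ.restrictScalars ℂ))) (φ' (v.map (τ.restrictScalars ℂ))) -
        f (φ (w.map (τ.restrictScalars ℂ))) (φ' (w.map (τ.restrictScalars ℂ)))) = 0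

private theorem Cl_const {F : Type} [Field F] [Algebra ℂ F] {J : Type} (v : Place ℂ F)
    (p : ℙ ℂ (J → ℂ)) : DCI57.IsValue v (fun j => algebraMap ℂ F (p.rep j)) p :=
  ⟨1, fun j => by
    rw [one_mul, sub_self]
    exact v.vanishes_zero⟩

variable {Y} {W : Type} [AddCommGroup W] [Module ℂ W]

/-- class functions kill the divisors of functions (`div_of_galois`, `isValue_bel`) -/
theorem Fly.Cl1.div {s : S₁ ⊕ S₂ ⊕ S₃ ⊕ S₄ ⊕ S₅ ⊕ S₆} {f : Y.P s → W} (hf : Y.Cl1 f) {K : Type} [Field K]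
    [Algebra ℂ K] (hK : IsCurve ℂ K) (x : ∀ e : Y.E s, Y.J s e → K) (y : Place ℂ K → Y.P s)
    (hy : ∀ v e, DCI57.IsValue v (x e) ((y v).1 e)) {g : K} (hg : g ≠ 0) :
    ((dv hK g).sum fun v a => (a : ℂ) • f (y v)) = 0 := by
  refine div_of_galois hK (fun v => f (y v)) ?_ hg
  intro F _ _ _ _ _ _ j bel hbel a b v w hv hw
  exact hf F (fun e i => j (x e i)) (fun w => y (bel w))
    (fun w e => isValue_bel (hbel w) (hy (bel w) e)) a b v w hv hw

theorem Fly.Cl2.div {s s' : S₁ ⊕ S₂ ⊕ S₃ ⊕ S₄ ⊕ S₅ ⊕ S₆} {f : Y.P s → Y.P s' → W} (hf : Y.Cl2 f) {K : Type}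
    [Field K] [Algebra ℂ K] (hK : IsCurve ℂ K) (x : ∀ e : Y.E s, Y.J s e → K)
    (x' : ∀ e : Y.E s', Y.J s' e → K) (y : Place ℂ K → Y.P s) (y' : Place ℂ K → Y.P s')
    (hy : ∀ v e, DCI57.IsValue v (x e) ((y v).1 e))
    (hy' : ∀ v e, DCI57.IsValue v (x' e) ((y' v).1 e)) {g : K} (hg : g ≠ 0) :
    ((dv hK g).sum fun v a => (a : ℂ) • f (y v) (y' v)) = 0 := by
  refine div_of_galois hK (fun v => f (y v) (y' v)) ?_ hg
  intro F _ _ _ _ _ _ j bel hbel a b v w hv hw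
  exact hf F (fun e i => j (x e i)) (fun e i => j (x' e i)) (fun w => y (bel w))
    (fun w => y' (bel w)) (fun w e => isValue_bel (hbel w) (hy (bel w) e))
    (fun w e => isValue_bel (hbel w) (hy' (bel w) e)) a b v w hv hw

/-- fixing one of the points -/
theorem Fly.Cl2.left {s s' : S₁ ⊕ S₂ ⊕ S₃ ⊕ S₄ ⊕ S₅ ⊕ S₆} {f : Y.P s → Y.P s' → W} (hf : Y.Cl2 f)
    (q : Y.P s') : Y.Cl1 fun p => f p q := by
  intro F _ _ _ _ _ _ x φ hx a b v w hv hw
  exact hf F x (fun e i => algebraMap ℂ F ((q.1 e).rep i)) φ (fun _ => q) hx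
    (fun v e => Cl_const v (q.1 e)) a b v w hv hw

theorem Fly.Cl2.right {s s' : S₁ ⊕ S₂ ⊕ S₃ ⊕ S₄ ⊕ S₅ ⊕ S₆} {f : Y.P s → Y.P s' → W} (hf : Y.Cl2 f)
    (p : Y.P s) : Y.Cl1 fun q => f p q := by
  intro F _ _ _ _ _ _ x φ hx a b v w hv hw
  exact hf F (fun e i => algebraMap ℂ F ((p.1 e).rep i)) x (fun _ => p) φ
    (fun v e => Cl_const v (p.1 e)) hx a b v w hv hw

variable [Fintype S₁] [Fintype S₂] [Fintype S₄] [Fintype S₅] [Fintype S₆] [∀ s, NeZero (Y.d s)] [∀ s i, NeZero (Y.M s i)]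
  [∀ s i, NeZero ((Y.F s).M i)] [∀ s i, NeZero ((Y.Z s).M i)]
  [∀ s i, NeZero ((Y.V s).M i)]
  {k : S₁ ⊕ S₂ ⊕ S₃ ⊕ S₄ ⊕ S₅ ⊕ S₆ → ℕ} {F : Pts Y.P k → W}

omit [Fintype S₁] [Fintype S₂] [Fintype S₄] [Fintype S₅] [Fintype S₆] [∀ s, NeZero (Y.d s)] [∀ s i, NeZero (Y.M s i)]
  [∀ s i, NeZero ((Y.F s).M i)] [∀ s i, NeZero ((Y.Z s).M i)]
  [∀ s i, NeZero ((Y.V s).M i)] in
private theorem Cl_sum {ι : Type} [Fintype ι] (A B : ι → Pts Y.P k) :
    ((∑ i, (Finsupp.single (A i) (1 : ℚ) - Finsupp.single (B i) 1)).sum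
      fun p c => (c : ℂ) • F p) = ∑ i, (F (A i) - F (B i)) := by
  obtain ⟨L, hL⟩ : ∃ L : (Pts Y.P k →₀ ℚ) →+ W, ∀ z, L z = z.sum fun p c => (c : ℂ) • F p := by
    refine ⟨Finsupp.liftAddHom fun p =>
      ((smulAddHom ℂ W).flip (F p)).comp (Rat.castHom ℂ).toAddMonoidHom, fun z => ?_⟩
    rfl
  rw [← hL, map_sum]
  refine Finset.sum_congr rfl fun i _ => ?_
  rw [map_sub, hL, hL, Finsupp.sum_single_index, Finsupp.sum_single_index]
  · simp
  · simp
  · simp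

/-- the equation for a morphism -/
private theorem Cl_use (hF : Y.sys.IsCl F) (F' : Type) [Field F'] [Algebra ℂ F']
    [Algebra (RatFunc ℂ) F'] [IsScalarTower ℂ (RatFunc ℂ) F'] [FiniteDimensional (RatFunc ℂ) F']
    [IsGalois (RatFunc ℂ) F'] (X : ∀ (i : Idx k) (e : Y.E i.1), Y.J i.1 e → F')
    (Φ : Place ℂ F' → Pts Y.P k) (hΦ : ∀ v i e, DCI57.IsValue v (X i e) ((Φ v i).1 e)) (a b : ℂ)
    (v w : Place ℂ F')
    (hv : v.Vanishes (algebraMap (RatFunc ℂ) F' (RatFunc.X - RatFunc.C a)))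
    (hw : w.Vanishes (algebraMap (RatFunc ℂ) F' (RatFunc.X - RatFunc.C b))) :
    ∑ τ : F' ≃ₐ[RatFunc ℂ] F', (F (Φ (v.map (τ.restrictScalars ℂ))) -
      F (Φ (w.map (τ.restrictScalars ℂ)))) = 0 := by
  rw [← Cl_sum (F := F)]
  refine hF _ ?_
  change _ ∈ Y.rat k
  unfold Fly.rat
  refine Submodule.subset_span ?_
  exact ⟨F', inferInstance, inferInstance, inferInstance, inferInstance, inferInstance,
    inferInstance, X, Φ, hΦ, a, b, v, w, hv, hw, rfl⟩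

/-- one slot -/
theorem IsCl.slot1 (hF : Y.sys.IsCl F) (x : Pts Y.P k) (i : Idx k) :
    Y.Cl1 fun q : Y.P i.1 => F (Function.update x i q) := by
  intro F' _ _ _ _ _ _ y φ hy a b v w hv hw
  refine Cl_use hF F' (Function.update (fun (i' : Idx k) (e : Y.E i'.1) (j : Y.J i'.1 e) =>
    algebraMap ℂ F' (((x i').1 e).rep j)) i y) (fun v => Function.update x i (φ v)) ?_ a b v w
    hv hw
  intro v i' e
  rcases eq_or_ne i' i with h | h
  · subst h
    rw [Function.update_self, Function.update_self]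
    exact hy v e
  · rw [Function.update_of_ne h, Function.update_of_ne h]
    exact Cl_const v _

/-- two slots -/
theorem IsCl.slot2 (hF : Y.sys.IsCl F) (x : Pts Y.P k) {i j : Idx k} (hij : i ≠ j) :
    Y.Cl2 fun (q : Y.P i.1) (r : Y.P j.1) =>
      F (Function.update (Function.update x i q) j r) := by
  intro F' _ _ _ _ _ _ y y' φ φ' hy hy' a b v w hv hw
  refine Cl_use hF F' (Function.update (Function.update
    (fun (i' : Idx k) (e : Y.E i'.1) (j : Y.J i'.1 e) => algebraMap ℂ F' (((x i').1 e).rep j))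
    i y) j y') (fun v => Function.update (Function.update x i (φ v)) j (φ' v)) ?_ a b v w hv hw
  intro v i' e
  rcases eq_or_ne i' j with h | h
  · subst h
    rw [Function.update_self, Function.update_self]
    exact hy' v e
  · rw [Function.update_of_ne h, Function.update_of_ne h]
    rcases eq_or_ne i' i with h2 | h2
    · subst h2
      rw [Function.update_self, Function.update_self]
      exact hy v e
    · rw [Function.update_of_ne h2, Function.update_of_ne h2]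
      exact Cl_const v _

/-- the slots of the first kind -/
theorem IsCl.part (hF : Y.sys.IsCl F) (x : Pts Y.P k) (F' : Type) [Field F'] [Algebra ℂ F']
    [Algebra (RatFunc ℂ) F'] [IsScalarTower ℂ (RatFunc ℂ) F'] [FiniteDimensional (RatFunc ℂ) F']
    [IsGalois (RatFunc ℂ) F']
    (y : ∀ i : Idx (fun s => k (Sum.inl s)), Fin (Y.r i.1 * Y.d i.1) → F')
    (φ : Place ℂ F' → ∀ i : Idx (fun s => k (Sum.inl s)), Y.P (Sum.inl i.1))
    (hφ : ∀ v i, DCI57.IsValue v (y i) ((φ v i).1 ())) (a b : ℂ) (v w : Place ℂ F')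
    (hv : v.Vanishes (algebraMap (RatFunc ℂ) F' (RatFunc.X - RatFunc.C a)))
    (hw : w.Vanishes (algebraMap (RatFunc ℂ) F' (RatFunc.X - RatFunc.C b))) :
    ∑ τ : F' ≃ₐ[RatFunc ℂ] F', (F (insL (φ (v.map (τ.restrictScalars ℂ))) x) -
      F (insL (φ (w.map (τ.restrictScalars ℂ))) x)) = 0 := by
  obtain ⟨X, hX1, hX2⟩ : ∃ X : ∀ (i : Idx k) (e : Y.E i.1), Y.J i.1 e → F',
      (∀ (s : S₁) (l : Fin (k (Sum.inl s))) (e : Y.E (Sum.inl s)),
        X ⟨Sum.inl s, l⟩ e = y ⟨s, l⟩) ∧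
      ∀ (s : S₂ ⊕ S₃ ⊕ S₄ ⊕ S₅ ⊕ S₆) (l : Fin (k (Sum.inr s))) (e : Y.E (Sum.inr s)),
        X ⟨Sum.inr s, l⟩ e = fun j => algebraMap ℂ F' (((x ⟨Sum.inr s, l⟩).1 e).rep j) :=
    ⟨fun i => match i with
      | ⟨.inl s, l⟩ => fun _ => y ⟨s, l⟩
      | ⟨.inr s, l⟩ => fun e j => algebraMap ℂ F' (((x ⟨.inr s, l⟩).1 e).rep j),
      fun _ _ _ => rfl, fun _ _ _ => rfl⟩
  refine Cl_use hF F' X (fun v => insL (φ v) x) ?_ a b v w hv hw
  rintro v ⟨s | s, l⟩ e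
  · rw [hX1]
    exact hφ v ⟨s, l⟩
  · rw [hX2]
    exact Cl_const v _

end Pool.Agent.BBW
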