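import Pool.Agent.BBW.Defs

/-!
# The conditions for filtrations on the zero-cycles on the products `Y ^ m`
-/

set_option autoImplicit false

noncomputable section

namespace Pool.Agent.BBW

open Pool.Agent.BBM

variable {S₁ S₂ S₃ S₄ S₅ S₆ : Type} [Fintype S₁] [Fintype S₂] [Fintype S₃] [Fintype S₄] [Fintype S₅] [Fintype S₆]

/-- `Φ` is a system of decreasing filtrations on the zero-cycles modulo rational equivalence on all
products `Y ^ m` (every `Φ m ν` is a subspace of the zero-cycles which contains the space `Y.rat m`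
of the zero-cycles which are rationally equivalent to zero), such that `F⁰` is everything, with the
properties 2, 3 and 4 of a Bloch-Beilinson filtration for the correspondences `γ` which are
combinations of morphisms `Y ^ m → Y ^ m'` all of whose components are constant or a factor followed
by an automorphism. (Nothing is assumed about `F¹` and `F²`.) -/
structure Fly.Conds (Y : Fly S₁ S₂ S₃ S₄ S₅ S₆)
    (Φ : (m : S₁ ⊕ S₂ ⊕ S₃ ⊕ S₄ ⊕ S₅ ⊕ S₆ → ℕ) → ℕ → Submodule ℚ (Pts Y.P m →₀ ℚ)) : Prop where
  /-- `F^ν` is a subspace of the Chow group: it contains the cycles rationally equivalent to zero -/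
  ge : ∀ m ν, Y.rat m ≤ Φ m ν
  /-- the filtration is decreasing -/
  anti : ∀ m ν, Φ m (ν + 1) ≤ Φ m ν
  /-- 1, first part: `F⁰` is everything -/
  zero : ∀ m, Φ m 0 = ⊤
  /-- 2: `F^(dim + 1) = 0` -/
  top : ∀ m, Φ m (∑ s, Y.n s * m s + 1) = Y.rat m
  /-- 3: correspondences respect the filtration -/
  map : ∀ m m' ν (γ : Mor Y.P Y.G m m' →₀ ℚ), (Φ m ν).map (pushM Y.act γ) ≤ Φ m' ν
  /-- 4: a correspondence which is zero on the holomorphic `ν`-forms is zero on `gr^ν` -/
  grad : ∀ m m' ν (γ : Mor Y.P Y.G m m' →₀ ℚ), Y.KillsForms γ ν →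
    (Φ m ν).map (pushM Y.act γ) ≤ Φ m' (ν + 1)

end Pool.Agent.BBW
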