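import Pool.Agent.BBW.EmbDefs
import Pool.Agent.BBX.Emb

/-!
# Products of varieties of six kinds as subsets of products of projective spaces

The product `Y ^ m` (`Pool.Agent.BBW.Defs`) is a closed algebraic subset of a product of projective
spaces; automorphisms are given by linear maps; rational equivalence.
-/

set_option autoImplicit false

noncomputable section

namespace Pool.Agent.BBW

open MvPolynomial Pool.Agent.ZCyc Pool.Agent.BBM
open Pool.Agent.QPP (MH IsAlg)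
open scoped LinearAlgebra.Projectivization

section gen

variable {I : Type} {J : I → Type} [∀ i, Fintype (J i)]

private theorem mh_C (a : ℂ) : MH (I := I) (J := J) (C a) fun _ => 0 := by
  classical
  intro n hn i
  rw [coeff_C] at hn
  have h1 : (0 : (Σ i, J i) →₀ ℕ) = n := by
    by_contra h
    rw [if_neg h] at hn
    exact hn rfl
  rw [← h1]
  exact Finset.sum_eq_zero fun j _ => rfl

private theorem mh_mul {f g : MvPolynomial (Σ i, J i) ℂ} {δ ε : I → ℕ}
    (hf : MH f δ) (hg : MH g ε) : MH (f * g) fun i => δ i + ε i := by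
  classical
  intro n hn i
  rw [coeff_mul] at hn
  obtain ⟨⟨n1, n2⟩, h1, h2⟩ := Finset.exists_ne_zero_of_sum_ne_zero hn
  replace h1 : n1 + n2 = n := Finset.HasAntidiagonal.mem_antidiagonal.1 h1
  change f.coeff n1 * g.coeff n2 ≠ 0 at h2
  have h3 : ∑ j, n1 ⟨i, j⟩ + ∑ j, n2 ⟨i, j⟩ = δ i + ε i :=
    congrArg₂ _ (hf n1 (left_ne_zero_of_mul h2) i) (hg n2 (right_ne_zero_of_mul h2) i)
  rw [← h1]
  refine Eq.trans ?_ h3
  rw [← Finset.sum_add_distrib]
  rfl

private theorem mh_sum {T : Type*} {S : Finset T} {f : T → MvPolynomial (Σ i, J i) ℂ} {δ : I → ℕ}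
    (hf : ∀ t ∈ S, MH (f t) δ) : MH (∑ t ∈ S, f t) δ := by
  intro n hn i
  rw [coeff_sum] at hn
  obtain ⟨t, ht, h1⟩ := Finset.exists_ne_zero_of_sum_ne_zero hn
  exact hf t ht n h1 i

private theorem mh_add {f g : MvPolynomial (Σ i, J i) ℂ} {δ : I → ℕ} (hf : MH f δ)
    (hg : MH g δ) : MH (f + g) δ := by
  intro n hn i
  rw [coeff_add] at hn
  by_cases h : f.coeff n = 0
  · rw [h, zero_add] at hn
    exact hg n hn i
  · exact hf n h i

private theorem mh_prod {T : Type*} {S : Finset T} {f : T → MvPolynomial (Σ i, J i) ℂ}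
    {δ : T → I → ℕ} (hf : ∀ t ∈ S, MH (f t) (δ t)) :
    MH (∏ t ∈ S, f t) fun i => ∑ t ∈ S, δ t i := by
  classical
  induction S using Finset.induction_on with
  | empty =>
    simp only [Finset.prod_empty, Finset.sum_empty]
    exact mh_C 1
  | insert a S ha ih =>
    rw [Finset.prod_insert ha]
    simp only [Finset.sum_insert ha]
    exact mh_mul (hf a (Finset.mem_insert_self a S))
      (ih fun t ht => hf t (Finset.mem_insert_of_mem ht))

private theorem mh_smul (u : ℤˣ) {f : MvPolynomial (Σ i, J i) ℂ} {δ : I → ℕ}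
    (hf : MH f δ) : MH (u • f) δ := by
  intro n hn i
  refine hf n (fun h => hn ?_) i
  rcases Int.units_eq_one_or u with rfl | rfl
  · rw [one_smul, h]
  · rw [Units.neg_smul, one_smul, coeff_neg, h, neg_zero]

private theorem mh_X [DecidableEq I] (s : I) (c : J s) :
    MH (MvPolynomial.X (⟨s, c⟩ : Σ i, J i) : MvPolynomial (Σ i, J i) ℂ)
      (fun i => Pi.single (M := fun _ => ℕ) s 1 i) := by
  classical
  intro n hn i
  beta_reduce
  rw [Pi.single_apply]
  rw [coeff_X] at hn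
  have h1 : Finsupp.single (⟨s, c⟩ : Σ i, J i) 1 = n := by
    by_contra h
    rw [if_neg h] at hn
    exact hn rfl
  rw [← h1]
  by_cases hi : i = s
  · subst hi
    rw [if_pos rfl, Finset.sum_eq_single c]
    · rw [Finsupp.single_eq_same]
    · intro j _ hj
      rw [Finsupp.single_eq_of_ne]
      intro h
      exact hj (eq_of_heq (Sigma.mk.inj h).2)
    · intro h
      exact absurd (Finset.mem_univ _) h
  · rw [if_neg hi]
    refine Finset.sum_eq_zero fun j _ => ?_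
    rw [Finsupp.single_eq_of_ne]
    intro h
    exact hi (Sigma.mk.inj h).1

private theorem mh_X_pow [DecidableEq I] (s : I) (c : J s) (m : ℕ) :
    MH (MvPolynomial.X (⟨s, c⟩ : Σ i, J i) ^ m : MvPolynomial (Σ i, J i) ℂ)
      (fun i => Pi.single (M := fun _ => ℕ) s m i) := by
  have h1 := mh_prod (S := Finset.range m) fun _ _ => mh_X s c
  rw [Finset.prod_const, Finset.card_range] at h1
  convert h1 using 2 with i
  rw [Finset.sum_const, Finset.card_range, smul_eq_mul, Pi.single_apply, Pi.single_apply]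
  split_ifs
  · rw [mul_one]
  · rw [mul_zero]

/-- determinants of matrices whose entry `(i, j)` has the degree `δ i + ε j` -/
private theorem mh_det {T : Type} [Fintype T] [DecidableEq T]
    {D : Matrix T T (MvPolynomial (Σ i, J i) ℂ)} {δ ε : T → I → ℕ}
    (hD : ∀ i j, MH (D i j) (fun a => δ i a + ε j a)) :
    MH D.det fun a => ∑ t, (δ t a + ε t a) := by
  rw [Matrix.det_apply]
  refine mh_sum fun σ _ => mh_smul _ ?_
  have h1 := mh_prod (S := Finset.univ) fun t (_ : t ∈ Finset.univ) => hD (σ t) t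
  have h2 : (fun a => ∑ t, (δ (σ t) a + ε t a)) = fun a => ∑ t, (δ t a + ε t a) := by
    funext a
    rw [Finset.sum_add_distrib, Finset.sum_add_distrib, Equiv.sum_comp σ fun t => δ t a]
  rw [h2] at h1
  exact h1

end gen

section four

variable {l : ℕ} (F : ARS.Fam ℂ l)

/-- the form of degree `d` with the coefficients of `P` -/
private def frm (d : ℕ) (P : Polynomial ℂ) : MvPolynomial (Σ _ : Option (Fin l), Fin 2) ℂ :=
  ∑ j ∈ Finset.range (d + 1), C (P.coeff j) *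
    (MvPolynomial.X (⟨none, 0⟩ : Σ _ : Option (Fin l), Fin 2) ^ j *
      MvPolynomial.X (⟨none, 1⟩ : Σ _ : Option (Fin l), Fin 2) ^ (d - j))

private theorem frm_mh (d : ℕ) (P : Polynomial ℂ) :
    MH (I := Option (Fin l)) (J := fun _ => Fin 2) (frm d P)
      (fun a => Pi.single (M := fun _ => ℕ) none d a) := by
  refine mh_sum fun j hj => ?_
  have h1 := mh_mul (mh_C (I := Option (Fin l)) (J := fun _ => Fin 2) (P.coeff j))
    (mh_mul (mh_X_pow (I := Option (Fin l)) (J := fun _ => Fin 2) none 0 j)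
      (mh_X_pow (I := Option (Fin l)) (J := fun _ => Fin 2) none 1 (d - j)))
  convert h1 using 2 with a
  have h2 := Finset.mem_range.1 hj
  rw [Pi.single_apply, Pi.single_apply, Pi.single_apply]
  split_ifs
  · omega
  · rfl

private def entry (i j : Fin l) : MvPolynomial (Σ _ : Option (Fin l), Fin 2) ℂ :=
  frm (F.e i) (F.A i j) *
      MvPolynomial.X (⟨some j, 1⟩ : Σ _ : Option (Fin l), Fin 2) ^ F.M j +
    C (-1) * (frm (F.e i) (F.B i j) *
      MvPolynomial.X (⟨some j, 0⟩ : Σ _ : Option (Fin l), Fin 2) ^ F.M j)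

private theorem entry_mh (i j : Fin l) :
    MH (I := Option (Fin l)) (J := fun _ => Fin 2) (entry F i j)
      (fun a => Pi.single (M := fun _ => ℕ) none (F.e i) a +
        Pi.single (M := fun _ => ℕ) (some j) (F.M j) a) := by
  refine mh_add (mh_mul (frm_mh _ _) (mh_X_pow (I := Option (Fin l)) (J := fun _ => Fin 2)
    (some j) 1 _)) ?_
  have h1 := mh_mul (mh_C (I := Option (Fin l)) (J := fun _ => Fin 2) (-1 : ℂ))
    (mh_mul (frm_mh (F.e i) (F.B i j)) (mh_X_pow (I := Option (Fin l)) (J := fun _ => Fin 2)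
      (some j) 0 (F.M j)))
  simp only [zero_add] at h1
  exact h1

theorem isAlg_four : IsAlg (I := Option (Fin l)) (J := fun _ => Fin 2)
    {p : Option (Fin l) → ℙ ℂ (Fin 2 → ℂ) | (Matrix.of fun i j =>
      ARS.ev (F.e i) (F.A i j) (p none).rep * (p (some j)).rep 1 ^ F.M j -
      ARS.ev (F.e i) (F.B i j) (p none).rep * (p (some j)).rep 0 ^ F.M j).det = 0} := by
  classical
  have h0 : ∀ (d : ℕ) (P : Polynomial ℂ) (p : Option (Fin l) → ℙ ℂ (Fin 2 → ℂ)),
      eval (fun a : Σ _ : Option (Fin l), Fin 2 => (p a.1).rep a.2) (frm d P) =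
        ARS.ev d P (p none).rep := by
    intro d P p
    unfold frm ARS.ev
    rw [map_sum]
    refine Finset.sum_congr rfl fun j _ => ?_
    rw [map_mul, map_mul, map_pow, map_pow, eval_C, eval_X, eval_X]
    rfl
  have h1 : ∀ p : Option (Fin l) → ℙ ℂ (Fin 2 → ℂ),
      eval (fun a : Σ _ : Option (Fin l), Fin 2 => (p a.1).rep a.2)
        (Matrix.of (entry F)).det =
        (Matrix.of fun i j =>
          ARS.ev (F.e i) (F.A i j) (p none).rep * (p (some j)).rep 1 ^ F.M j -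
          ARS.ev (F.e i) (F.B i j) (p none).rep * (p (some j)).rep 0 ^ F.M j).det := by
    intro p
    rw [RingHom.map_det]
    congr 1
    ext i j
    change eval _ (entry F i j) = _ * _ - _ * _
    unfold entry
    rw [map_add, map_mul, map_mul, map_mul, map_pow, map_pow, eval_X, eval_X, eval_C, h0, h0,
      neg_one_mul, sub_eq_add_neg]
  refine ⟨{(Matrix.of (entry F)).det}, ?_, ?_⟩
  · rintro _ rfl
    exact ⟨_, mh_det (I := Option (Fin l)) (J := fun _ => Fin 2)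
      (δ := fun i a => Pi.single (M := fun _ => ℕ) none (F.e i) a)
      (ε := fun j a => Pi.single (M := fun _ => ℕ) (some j) (F.M j) a)
      fun i j : Fin l => entry_mh F i j⟩
  · ext p
    constructor
    · rintro h _ rfl
      exact (h1 p).trans h
    · intro h
      exact (h1 p).symm.trans (h _ rfl)

end four

section five

variable (Z : GOX.Fam ℂ)

private theorem sum_three {α : Type*} [AddCommMonoid α] (f : Option (Fin 3) → α) :
    ∑ e, f e = f none + (f (some 0) + f (some 1) + f (some 2)) := by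
  rw [Fintype.sum_option, Fin.sum_univ_three]

/-- the monomial with the numbers `a`, `i`, `j`, `l` -/
private def mn5 (a : Fin 3) (i j l : Fin 2) : MvPolynomial (Σ _ : Option (Fin 3), Fin 2) ℂ :=
  C (Z.c a i j l) *
    (MvPolynomial.X (⟨none, 0⟩ : Σ _ : Option (Fin 3), Fin 2) ^ (a : ℕ) *
      MvPolynomial.X (⟨none, 1⟩ : Σ _ : Option (Fin 3), Fin 2) ^ (2 - (a : ℕ)) *
      (MvPolynomial.X (⟨some 0, Fin.rev i⟩ : Σ _ : Option (Fin 3), Fin 2) ^ Z.M 0 *
        MvPolynomial.X (⟨some 1, Fin.rev j⟩ : Σ _ : Option (Fin 3), Fin 2) ^ Z.M 1 *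
        MvPolynomial.X (⟨some 2, Fin.rev l⟩ : Σ _ : Option (Fin 3), Fin 2) ^ Z.M 2))

/-- the degrees -/
private def dg5 (e : Option (Fin 3)) : ℕ := Pi.single (M := fun _ => ℕ) none 2 e +
  (Pi.single (M := fun _ => ℕ) (some 0) (Z.M 0) e + Pi.single (M := fun _ => ℕ) (some 1) (Z.M 1) e +
    Pi.single (M := fun _ => ℕ) (some 2) (Z.M 2) e)

private theorem mn5_mh (a : Fin 3) (i j l : Fin 2) :
    MH (I := Option (Fin 3)) (J := fun _ => Fin 2) (mn5 Z a i j l) (dg5 Z) := by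
  have h1 := mh_mul (mh_C (I := Option (Fin 3)) (J := fun _ => Fin 2) (Z.c a i j l))
    (mh_mul (mh_mul (mh_X_pow (I := Option (Fin 3)) (J := fun _ => Fin 2) none 0 (a : ℕ))
      (mh_X_pow (I := Option (Fin 3)) (J := fun _ => Fin 2) none 1 (2 - (a : ℕ))))
      (mh_mul (mh_mul
        (mh_X_pow (I := Option (Fin 3)) (J := fun _ => Fin 2) (some 0) (Fin.rev i) (Z.M 0))
        (mh_X_pow (I := Option (Fin 3)) (J := fun _ => Fin 2) (some 1) (Fin.rev j) (Z.M 1)))
        (mh_X_pow (I := Option (Fin 3)) (J := fun _ => Fin 2) (some 2) (Fin.rev l) (Z.M 2))))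
  have h2 : dg5 Z = fun e => 0 + (Pi.single (M := fun _ => ℕ) none (a : ℕ) e +
      Pi.single (M := fun _ => ℕ) none (2 - (a : ℕ)) e +
      (Pi.single (M := fun _ => ℕ) (some 0) (Z.M 0) e +
        Pi.single (M := fun _ => ℕ) (some 1) (Z.M 1) e +
        Pi.single (M := fun _ => ℕ) (some 2) (Z.M 2) e)) := by
    funext e
    unfold dg5
    have h3 := a.isLt
    simp only [Pi.single_apply]
    split_ifs <;> omega
  rw [h2]
  exact h1

theorem isAlg_five : IsAlg (I := Option (Fin 3)) (J := fun _ => Fin 2)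
    {p : Option (Fin 3) → ℙ ℂ (Fin 2 → ℂ) |
      form5 Z (p none).rep (fun i => (p (some i)).rep) = 0} := by
  classical
  have h1 : ∀ p : Option (Fin 3) → ℙ ℂ (Fin 2 → ℂ),
      eval (fun a : Σ _ : Option (Fin 3), Fin 2 => (p a.1).rep a.2)
        (∑ a : Fin 3, ∑ i : Fin 2, ∑ j : Fin 2, ∑ l : Fin 2, mn5 Z a i j l) =
        form5 Z (p none).rep (fun i => (p (some i)).rep) := by
    intro p
    unfold form5
    simp only [map_sum]
    refine Finset.sum_congr rfl fun a _ => Finset.sum_congr rfl fun i _ =>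
      Finset.sum_congr rfl fun j _ => Finset.sum_congr rfl fun l _ => ?_
    unfold mn5
    simp only [map_mul, map_pow, eval_C, eval_X]
  refine ⟨{∑ a : Fin 3, ∑ i : Fin 2, ∑ j : Fin 2, ∑ l : Fin 2, mn5 Z a i j l}, ?_, ?_⟩
  · rintro _ rfl
    exact ⟨_, mh_sum fun a _ => mh_sum fun i _ => mh_sum fun j _ => mh_sum fun l _ =>
      mn5_mh Z a i j l⟩
  · ext p
    constructor
    · rintro h _ rfl
      exact (h1 p).trans h
    · intro h
      exact (h1 p).symm.trans (h _ rfl)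

end five

section six

variable (V : GOY.Fam ℂ)

/-- the form of degree `(e, d)` with the coefficients `u` -/
private def frm6 (e d : ℕ) (u : ℕ → ℕ → ℂ) : MvPolynomial (Σ _ : Fin 2 ⊕ Fin 2, Fin 2) ℂ :=
  ∑ m ∈ Finset.range (e + 1), ∑ n ∈ Finset.range (d + 1), C (u m n) *
    ((MvPolynomial.X (⟨.inl 0, 0⟩ : Σ _ : Fin 2 ⊕ Fin 2, Fin 2) ^ m *
      MvPolynomial.X (⟨.inl 0, 1⟩ : Σ _ : Fin 2 ⊕ Fin 2, Fin 2) ^ (e - m)) *
      (MvPolynomial.X (⟨.inl 1, 0⟩ : Σ _ : Fin 2 ⊕ Fin 2, Fin 2) ^ n *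
      MvPolynomial.X (⟨.inl 1, 1⟩ : Σ _ : Fin 2 ⊕ Fin 2, Fin 2) ^ (d - n)))

private theorem frm6_mh (e d : ℕ) (u : ℕ → ℕ → ℂ) :
    MH (I := Fin 2 ⊕ Fin 2) (J := fun _ => Fin 2) (frm6 e d u)
      (fun a => Pi.single (M := fun _ => ℕ) (.inl 0) e a +
        Pi.single (M := fun _ => ℕ) (.inl 1) d a) := by
  refine mh_sum fun m hm => mh_sum fun n hn => ?_
  have h1 := mh_mul (mh_C (I := Fin 2 ⊕ Fin 2) (J := fun _ => Fin 2) (u m n))
    (mh_mul (mh_mul (mh_X_pow (I := Fin 2 ⊕ Fin 2) (J := fun _ => Fin 2) (.inl 0) 0 m)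
      (mh_X_pow (I := Fin 2 ⊕ Fin 2) (J := fun _ => Fin 2) (.inl 0) 1 (e - m)))
      (mh_mul (mh_X_pow (I := Fin 2 ⊕ Fin 2) (J := fun _ => Fin 2) (.inl 1) 0 n)
      (mh_X_pow (I := Fin 2 ⊕ Fin 2) (J := fun _ => Fin 2) (.inl 1) 1 (d - n))))
  convert h1 using 2 with a
  have h2 := Finset.mem_range.1 hm
  have h3 := Finset.mem_range.1 hn
  simp only [Pi.single_apply]
  split_ifs <;> omega

private def entry6 (i j : Fin 2) : MvPolynomial (Σ _ : Fin 2 ⊕ Fin 2, Fin 2) ℂ :=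
  frm6 (V.e i) (V.d i) (V.A i j) *
      MvPolynomial.X (⟨.inr j, 1⟩ : Σ _ : Fin 2 ⊕ Fin 2, Fin 2) ^ V.M j +
    C (-1) * (frm6 (V.e i) (V.d i) (V.B i j) *
      MvPolynomial.X (⟨.inr j, 0⟩ : Σ _ : Fin 2 ⊕ Fin 2, Fin 2) ^ V.M j)

private theorem entry6_mh (i j : Fin 2) :
    MH (I := Fin 2 ⊕ Fin 2) (J := fun _ => Fin 2) (entry6 V i j)
      (fun a => (Pi.single (M := fun _ => ℕ) (.inl 0) (V.e i) a +
        Pi.single (M := fun _ => ℕ) (.inl 1) (V.d i) a) +
        Pi.single (M := fun _ => ℕ) (.inr j) (V.M j) a) := by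
  refine mh_add (mh_mul (frm6_mh _ _ _) (mh_X_pow (I := Fin 2 ⊕ Fin 2) (J := fun _ => Fin 2)
    (.inr j) 1 _)) ?_
  have h1 := mh_mul (mh_C (I := Fin 2 ⊕ Fin 2) (J := fun _ => Fin 2) (-1 : ℂ))
    (mh_mul (frm6_mh (V.e i) (V.d i) (V.B i j)) (mh_X_pow (I := Fin 2 ⊕ Fin 2)
      (J := fun _ => Fin 2) (.inr j) 0 (V.M j)))
  simp only [zero_add] at h1
  exact h1

theorem isAlg_six : IsAlg (I := Fin 2 ⊕ Fin 2) (J := fun _ => Fin 2)
    {p : Fin 2 ⊕ Fin 2 → ℙ ℂ (Fin 2 → ℂ) |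
      det6 V (p (.inl 0)).rep (p (.inl 1)).rep (fun i => (p (.inr i)).rep) = 0} := by
  classical
  have h0 : ∀ (e d : ℕ) (u : ℕ → ℕ → ℂ) (p : Fin 2 ⊕ Fin 2 → ℙ ℂ (Fin 2 → ℂ)),
      eval (fun a : Σ _ : Fin 2 ⊕ Fin 2, Fin 2 => (p a.1).rep a.2) (frm6 e d u) =
        GOY.ev e d u (p (.inl 0)).rep (p (.inl 1)).rep := by
    intro e d u p
    unfold frm6 GOY.ev
    rw [map_sum]
    refine Finset.sum_congr rfl fun m _ => ?_
    rw [map_sum]
    refine Finset.sum_congr rfl fun n _ => ?_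
    simp only [map_mul, map_pow, eval_C, eval_X]
    rfl
  have h1 : ∀ p : Fin 2 ⊕ Fin 2 → ℙ ℂ (Fin 2 → ℂ),
      eval (fun a : Σ _ : Fin 2 ⊕ Fin 2, Fin 2 => (p a.1).rep a.2)
        (Matrix.of (entry6 V)).det =
        det6 V (p (.inl 0)).rep (p (.inl 1)).rep (fun i => (p (.inr i)).rep) := by
    intro p
    unfold det6
    rw [RingHom.map_det]
    congr 1
    ext i j
    change eval _ (entry6 V i j) = _ * _ - _ * _
    unfold entry6
    rw [map_add, map_mul, map_mul, map_mul, map_pow, map_pow, eval_X, eval_X, eval_C, h0, h0,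
      neg_one_mul, sub_eq_add_neg]
  refine ⟨{(Matrix.of (entry6 V)).det}, ?_, ?_⟩
  · rintro _ rfl
    exact ⟨_, mh_det (I := Fin 2 ⊕ Fin 2) (J := fun _ => Fin 2)
      (δ := fun i a => Pi.single (M := fun _ => ℕ) (Sum.inl 0 : Fin 2 ⊕ Fin 2) (V.e i) a +
        Pi.single (M := fun _ => ℕ) (Sum.inl 1 : Fin 2 ⊕ Fin 2) (V.d i) a)
      (ε := fun j a => Pi.single (M := fun _ => ℕ) (Sum.inr j : Fin 2 ⊕ Fin 2) (V.M j) a)
      fun i j : Fin 2 => entry6_mh V i j⟩
  · ext p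
    constructor
    · rintro h _ rfl
      exact (h1 p).trans h
    · intro h
      exact (h1 p).symm.trans (h _ rfl)

end six

variable {S₁ S₂ S₃ S₄ S₅ S₆ : Type} (Y : Fly S₁ S₂ S₃ S₄ S₅ S₆)

/-- `Y s` is a closed algebraic subset. -/
theorem isAlg_X : ∀ s : S₁ ⊕ S₂ ⊕ S₃ ⊕ S₄ ⊕ S₅ ⊕ S₆, IsAlg (I := Y.E s) (J := Y.J s) (Y.X s)
  | .inl s => by
    have h := BBX.isAlg_unit (J := Fin (Y.r s * Y.d s))
      (Set.range fun i => ∑ j, C (Y.c s i j) * MvPolynomial.X j ^ Y.d s) (by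
        rintro _ ⟨i, rfl⟩
        exact ⟨Y.d s, IsHomogeneous.sum _ _ _ fun j _ => isHomogeneous_C_mul_X_pow _ _ _⟩)
    have h1 : {p : Unit → ℙ ℂ (Fin (Y.r s * Y.d s) → ℂ) | ∀ F ∈ Set.range fun i =>
        ∑ j, C (Y.c s i j) * MvPolynomial.X j ^ Y.d s, eval (p ()).rep F = 0} = Y.X (.inl s) := by
      ext p
      simp only [Set.mem_ofPred_eq, Set.forall_mem_range, map_sum, map_mul, map_pow, eval_C, eval_X]
      exact Iff.rfl
    rw [h1] at h
    exact h
  | .inr (.inl s) => BBX.isAlg_det (Y.A s) (Y.M s)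
  | .inr (.inr (.inr (.inl s))) => isAlg_four (Y.F s)
  | .inr (.inr (.inr (.inr (.inl s)))) => isAlg_five (Y.Z s)
  | .inr (.inr (.inr (.inr (.inr s)))) => isAlg_six (Y.V s)
  | .inr (.inr (.inl s)) => by
    have h := BBX.isAlg_unit (J := Fin 5)
      {(∑ i, MvPolynomial.X i ^ 5 - C (5 * Y.t s) * ∏ i, MvPolynomial.X i :
        MvPolynomial (Fin 5) ℂ)} (by
        rintro _ rfl
        refine ⟨5, IsHomogeneous.sub (IsHomogeneous.sum _ _ _ fun j _ =>
          isHomogeneous_X_pow _ _) ?_⟩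
        have h1 := IsHomogeneous.prod (Finset.univ : Finset (Fin 5))
          (fun i => (MvPolynomial.X i : MvPolynomial (Fin 5) ℂ)) (fun _ => 1)
          fun i _ => isHomogeneous_X _ _
        have h2 := (isHomogeneous_C (Fin 5) (5 * Y.t s)).mul h1
        simpa using h2)
    have h1 : {p : Unit → ℙ ℂ (Fin 5 → ℂ) | ∀ F ∈
        ({(∑ i, MvPolynomial.X i ^ 5 - C (5 * Y.t s) * ∏ i, MvPolynomial.X i :
          MvPolynomial (Fin 5) ℂ)} : Set _), eval (p ()).rep F = 0} = Y.X (.inr (.inr (.inl s))) := by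
      ext p
      simp only [Set.mem_ofPred_eq, Set.mem_singleton_iff, forall_eq, map_sub, map_sum, map_mul,
        map_pow, map_prod, eval_C, eval_X]
      exact sub_eq_zero
    rw [h1] at h
    exact h

/-- The automorphisms of `Y s` are given by linear maps. -/
theorem ap_lin : ∀ (s : S₁ ⊕ S₂ ⊕ S₃ ⊕ S₄ ⊕ S₅ ⊕ S₆) (g : Y.G s) (e : Y.E s),
    ∃ M : (Y.J s e → ℂ) →ₗ[ℂ] (Y.J s e → ℂ), ∀ p : Y.Amb s, ∃ h : M (p e).rep ≠ 0,
      Y.ap s g p e = Projectivization.mk ℂ (M (p e).rep) h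
  | .inl s, g, e => ⟨BBX.linD (N := Y.r s * Y.d s) g, fun p => ⟨BBP.mul_ne g (p e), rfl⟩⟩
  | .inr (.inl _), g, e => ⟨BBX.linD (N := 2) ![g e, 1], fun p => ⟨BBP.mul_ne _ (p e), rfl⟩⟩
  | .inr (.inr (.inl _)), g, _ => ⟨BBX.linM g, fun _ => ⟨_, rfl⟩⟩
  | .inr (.inr (.inr (.inl _))), g, e => by
    cases e with
    | none => exact ⟨LinearMap.id, fun p => ⟨Projectivization.rep_nonzero _,
        (Projectivization.mk_rep _).symm⟩⟩
    | some i => exact ⟨BBX.linD (N := 2) ![g i, 1], fun p => ⟨BBP.mul_ne _ (p (some i)), rfl⟩⟩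
  | .inr (.inr (.inr (.inr (.inl _)))), g, e => by
    cases e with
    | none => exact ⟨LinearMap.id, fun p => ⟨Projectivization.rep_nonzero _,
        (Projectivization.mk_rep _).symm⟩⟩
    | some i => exact ⟨BBX.linD (N := 2) ![g i, 1], fun p => ⟨BBP.mul_ne _ (p (some i)), rfl⟩⟩
  | .inr (.inr (.inr (.inr (.inr _)))), g, e => by
    cases e with
    | inl j => exact ⟨LinearMap.id, fun p => ⟨Projectivization.rep_nonzero _,
        (Projectivization.mk_rep _).symm⟩⟩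
    | inr i => exact ⟨BBX.linD (N := 2) ![g i, 1], fun p => ⟨BBP.mul_ne _ (p (.inr i)), rfl⟩⟩

end Pool.Agent.BBW
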