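import Pool.Agent.BBW.AutDefs
import Pool.Agent.HYP.AlgDefs

/-!
# Products of varieties of the six kinds as subsets of products of projective spaces

The variety `Y s` (`Pool.Agent.BBW.Defs`) is a subset of a product of projective spaces. So the
product `Y ^ m` is a subset of a product of projective spaces, too, and the automorphisms `Aut Y m`
act on this product.
-/

set_option autoImplicit false

noncomputable section

namespace Pool.Agent.BBW

open Pool.Agent.BBM
open scoped LinearAlgebra.Projectivization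

variable {S₁ S₂ S₃ S₄ S₅ S₆ : Type} (Y : Fly S₁ S₂ S₃ S₄ S₅ S₆)

instance fintypeE : ∀ s : S₁ ⊕ S₂ ⊕ S₃ ⊕ S₄ ⊕ S₅ ⊕ S₆, Fintype (Y.E s)
  | .inl _ => inferInstanceAs (Fintype Unit)
  | .inr (.inl s) => inferInstanceAs (Fintype (Fin (Y.l s)))
  | .inr (.inr (.inl _)) => inferInstanceAs (Fintype Unit)
  | .inr (.inr (.inr (.inl s))) => inferInstanceAs (Fintype (Option (Fin (Y.l₄ s))))
  | .inr (.inr (.inr (.inr (.inl _)))) => inferInstanceAs (Fintype (Option (Fin 3)))
  | .inr (.inr (.inr (.inr (.inr _)))) => inferInstanceAs (Fintype (Fin 2 ⊕ Fin 2))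

instance fintypeJ : ∀ (s : S₁ ⊕ S₂ ⊕ S₃ ⊕ S₄ ⊕ S₅ ⊕ S₆) (e : Y.E s), Fintype (Y.J s e)
  | .inl s => fun _ => inferInstanceAs (Fintype (Fin (Y.r s * Y.d s)))
  | .inr (.inl _) => fun _ => inferInstanceAs (Fintype (Fin 2))
  | .inr (.inr (.inl _)) => fun _ => inferInstanceAs (Fintype (Fin 5))
  | .inr (.inr (.inr (.inl _))) => fun _ => inferInstanceAs (Fintype (Fin 2))
  | .inr (.inr (.inr (.inr (.inl _)))) => fun _ => inferInstanceAs (Fintype (Fin 2))
  | .inr (.inr (.inr (.inr (.inr _)))) => fun _ => inferInstanceAs (Fintype (Fin 2))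

variable (m : S₁ ⊕ S₂ ⊕ S₃ ⊕ S₄ ⊕ S₅ ⊕ S₆ → ℕ)

/-- The numbers of the projective spaces for `Y ^ m`: `⟨i, e⟩` is the projective space with the
number `e` for the factor `i`. -/
abbrev Fly.II : Type := Σ i : Idx m, Y.E i.1

/-- The numbers of the homogeneous coordinates. -/
abbrev Fly.JJ (x : Y.II m) : Type := Y.J x.1.1 x.2

/-- The product of projective spaces which contains `Y ^ m`. -/
abbrev Fly.AmbM : Type := ∀ x : Y.II m, ℙ ℂ (Y.JJ m x → ℂ)

/-- The product `Y ^ m` as a subset of the product of projective spaces. -/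
def Fly.XM : Set (Y.AmbM m) := {p | ∀ i : Idx m, (fun e => p ⟨i, e⟩) ∈ Y.X i.1}

variable {Y m}

/-- The action of an automorphism on the product of projective spaces: the component `⟨s, b⟩` of the
image of `p` is the automorphism `diag ⟨s, b⟩` applied to the component `⟨s, perm s b⟩` of `p`. -/
def actM (g : Aut Y m) (p : Y.AmbM m) : Y.AmbM m :=
  fun x => Y.ap x.1.1 (g.diag x.1) (fun e => p ⟨⟨x.1.1, g.perm x.1.1 x.1.2⟩, e⟩) x.2

end Pool.Agent.BBW
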