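import Pool.Agent.BBW.Cl
import Pool.Agent.BBW.InstA
import Pool.Agent.DWG.Bridge
import Pool.Agent.DWG.Kill
import Pool.Agent.DWK.Final

/-!
# The Dwork quintic threefolds
-/

set_option autoImplicit false

noncomputable section

namespace Pool.Agent.BBW

open Pool.Agent.BBX

open Pool.Agent.ZCyc Pool.Agent.BBM Pool.Agent.GT Pool.Agent.DWK
open scoped LinearAlgebra.Projectivization Classical

/-! ### The relations between cycles -/

/-- the points of the product of `n` copies of the quintic -/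
private def XD (t : ℂ) (n : ℕ) : Set (Fin n → ℙ ℂ (Fin 5 → ℂ)) :=
  {p | ∀ j, ∑ i, (p j).rep i ^ 5 = 5 * t * ∏ i, (p j).rep i}

section

variable {t : ℂ}

private theorem eval_dw (t : ℂ) (p : ℙ ℂ (Fin 5 → ℂ)) :
    MvPolynomial.aeval (p.rep : Fin (4 + 1) → ℂ) (dwork t) =
      ∑ i, p.rep i ^ 5 - 5 * t * ∏ i, p.rep i := by
  unfold dwork
  rw [map_sub, map_sum, map_mul, map_prod, MvPolynomial.aeval_C]
  simp only [map_pow, MvPolynomial.aeval_X]
  rfl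

private theorem mem_pt {p : ℙ ℂ (Fin 5 → ℂ)} (hp : ∑ i, p.rep i ^ 5 = 5 * t * ∏ i, p.rep i) :
    ∀ f ∈ ({dwork t} : Set (MvPolynomial (Fin (4 + 1)) ℂ)),
      MvPolynomial.aeval (p.rep : Fin (4 + 1) → ℂ) f = 0 := by
  rintro f rfl
  exact (eval_dw t p).trans (sub_eq_zero.2 hp)

private theorem cls_pt {x : Fin 5 → ℂ} (hx : On t x) (y : Pt (m := 4) {dwork t} ℂ)
    (hy : y.1 = Projectivization.mk ℂ x hx.1) : cls t x = cl1 {dwork t} (Finsupp.single y 1) := by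
  unfold cls
  rw [cyc_on hx]
  congr 2
  exact Subtype.ext hy.symm

private theorem ext_val {T : Type} {n : ℕ} (z : Fin n → (T →₀ ℚ)) (x : Fin n → T) :
    ext z x = ∏ j, z j (x j) := by
  unfold ext
  rw [Finsupp.finsetSum_apply]
  simp only [Finsupp.single_apply]
  rw [Finset.sum_ite_eq' (Fintype.piFinset fun j => (z j).support) x (fun x => ∏ j, z j (x j))]
  split_ifs with h
  · rfl
  · rw [Fintype.mem_piFinset] at h
    push Not at h
    obtain ⟨j, hj⟩ := h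
    refine (Finset.prod_eq_zero (Finset.mem_univ j) ?_).symm
    exact Finsupp.notMem_support_iff.1 hj

private theorem ext2_val {T : Type} (a b : T →₀ ℚ) (x : Fin 2 → T) :
    ext ![a, b] x = a (x 0) * b (x 1) := by
  rw [ext_val, Fin.prod_univ_two]
  rfl

private theorem single2_val {T : Type} (p q : T) (x : Fin 2 → T) :
    Finsupp.single ![p, q] (1 : ℚ) x = Finsupp.single p (1 : ℚ) (x 0) *
      Finsupp.single q (1 : ℚ) (x 1) := by
  have h1 := ext_single ![p, q] fun _ => (1 : ℚ)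
  rw [Finset.prod_const_one] at h1
  rw [← h1, ext_val, Fin.prod_univ_two]
  rfl

private theorem ext2_sub {T : Type} (p p' q q' : T) :
    ext ![Finsupp.single p (1 : ℚ) - Finsupp.single p' 1, Finsupp.single q (1 : ℚ) -
      Finsupp.single q' 1] = Finsupp.single ![p, q] 1 - Finsupp.single ![p, q'] 1 -
        Finsupp.single ![p', q] 1 + Finsupp.single ![p', q'] 1 := by
  ext x
  rw [ext2_val]
  simp only [Finsupp.add_apply, Finsupp.sub_apply, single2_val]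
  ring

/-- the comparison -/
private theorem to_XD {n : ℕ} {z : (Fin n → Pt (m := 4) {dwork t} ℂ) →₀ ℚ}
    (hz : z ∈ Rat {dwork t} (Fin n)) :
    Finsupp.lmapDomain ℚ ℚ (fun (x : Fin n → Pt (m := 4) {dwork t} ℂ) l => (x l).1) z ∈
      MPC.ratEquiv (J := fun _ : Fin n => Fin 5) ℚ (XD t n) := by
  have h1 := DWG.rat_le (dwork_hom t) hz
  have h2 : {p : Fin n → ℙ ℂ (Fin 5 → ℂ) | ∀ i, ∀ F ∈ ({dwork t} : Set (MvPolynomial
      (Fin (4 + 1)) ℂ)), MvPolynomial.aeval (p i).rep F = 0} = XD t n := by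
    ext p
    refine forall_congr' fun i => ?_
    constructor
    · intro h
      exact sub_eq_zero.1 ((eval_dw t (p i)).symm.trans (h _ rfl))
    · intro h
      exact mem_pt h
  rw [← h2]
  exact h1

private theorem on_rep {p : ℙ ℂ (Fin 5 → ℂ)} (hp : ∑ i, p.rep i ^ 5 = 5 * t * ∏ i, p.rep i) :
    On t (p.rep : Fin 5 → ℂ) := ⟨p.rep_nonzero, hp⟩

private theorem on_o : On t (oo ℂ) := by
  refine ⟨fun h => ?_, ?_⟩
  · have h1 := congrFun h 0
    simp [oo] at h1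
  · simp only [Fin.sum_univ_five, Fin.prod_univ_five, oo]
    simp
    ring

private theorem eq1 (g : Mon ℂ) {p : ℙ ℂ (Fin 5 → ℂ)}
    (hp : ∑ i, p.rep i ^ 5 = 5 * t * ∏ i, p.rep i) :
    (Finsupp.single (fun _ => DWG.actP g p) 1 - Finsupp.single (fun _ => o5) 1 -
      ((Equiv.Perm.sign g.π : ℤ) : ℚ) • (Finsupp.single (fun _ => p) 1 -
        Finsupp.single (fun _ => o5) 1) : (Fin 1 → ℙ ℂ (Fin 5 → ℂ)) →₀ ℚ) ∈
      MPC.ratEquiv (J := fun _ : Fin 1 => Fin 5) ℚ (XD t 1) := by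
  have hg : ∀ f ∈ ({dwork t} : Set (MvPolynomial (Fin (4 + 1)) ℂ)),
      MvPolynomial.aeval ((DWG.actP g p).rep : Fin (4 + 1) → ℂ) f = 0 := by
    intro f hf
    rw [Set.mem_singleton_iff] at hf
    subst hf
    exact DWG.aeval_actP g (mem_pt hp _ rfl)
  obtain ⟨P, hP⟩ : ∃ P : Pt (m := 4) {dwork t} ℂ, P = ⟨p, mem_pt hp⟩ := ⟨_, rfl⟩
  obtain ⟨Q, hQ⟩ : ∃ Q : Pt (m := 4) {dwork t} ℂ, Q = ⟨o5, mem_pt (o5_mem t)⟩ := ⟨_, rfl⟩
  obtain ⟨P', hP'⟩ : ∃ P' : Pt (m := 4) {dwork t} ℂ, P' = ⟨DWG.actP g p, hg⟩ := ⟨_, rfl⟩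
  have e1 : cls t p.rep = cl1 {dwork t} (Finsupp.single P 1) :=
    cls_pt (on_rep hp) P (by rw [hP]; exact (Projectivization.mk_rep p).symm)
  have e2 : oC t = cl1 {dwork t} (Finsupp.single Q 1) := cls_pt on_o Q (by rw [hQ]; rfl)
  have e3 : cls t (g.ap p.rep) = cl1 {dwork t} (Finsupp.single P' 1) :=
    cls_pt (on_ap g (on_rep hp)) P' (by rw [hP']; rfl)
  have h1 := DWG.cls_ap (on_rep hp) g
  rw [e1, e2, e3] at h1
  have h3 : cl1 {dwork t} (Finsupp.single P' 1 - Finsupp.single Q 1 -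
      ((Equiv.Perm.sign g.π : ℤ) : ℚ) • (Finsupp.single P 1 - Finsupp.single Q 1)) = 0 := by
    rw [map_sub, map_sub, map_smul, map_sub]
    exact sub_eq_zero.2 h1
  have h4 : Ext (dwork_hom t) 1 (fun _ => cl1 {dwork t} (Finsupp.single P' 1 -
      Finsupp.single Q 1 - ((Equiv.Perm.sign g.π : ℤ) : ℚ) • (Finsupp.single P 1 -
        Finsupp.single Q 1))) = 0 := by
    rw [h3]
    exact (Ext (dwork_hom t) 1).map_coord_zero 0 rfl
  rw [Ext_cl, Submodule.Quotient.mk_eq_zero] at h4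
  have h5 := to_XD h4
  have h6 : (ext fun _ : Fin 1 => (Finsupp.single P' (1 : ℚ) - Finsupp.single Q 1 -
      ((Equiv.Perm.sign g.π : ℤ) : ℚ) • (Finsupp.single P 1 - Finsupp.single Q 1))) =
      Finsupp.single (fun _ => P') 1 - Finsupp.single (fun _ => Q) 1 -
      ((Equiv.Perm.sign g.π : ℤ) : ℚ) • (Finsupp.single (fun _ => P) 1 -
        Finsupp.single (fun _ => Q) 1) := by
    have key : ∀ (A : Pt (m := 4) {dwork t} ℂ) (x : Fin 1 → Pt (m := 4) {dwork t} ℂ),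
        Finsupp.single (fun _ : Fin 1 => A) (1 : ℚ) x = Finsupp.single A (1 : ℚ) (x 0) := by
      intro A x
      have h1 := ext_single (fun _ : Fin 1 => A) fun _ => (1 : ℚ)
      rw [Finset.prod_const_one] at h1
      rw [← h1, ext_val, Fin.prod_univ_one]
    ext x
    rw [ext_val, Fin.prod_univ_one]
    simp only [Finsupp.sub_apply, Finsupp.smul_apply, key]
  rw [h6] at h5
  simp only [map_sub, map_smul, Finsupp.lmapDomain_apply, Finsupp.mapDomain_single] at h5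
  rw [hP, hQ, hP'] at h5
  exact h5

private theorem eq2 {p q : ℙ ℂ (Fin 5 → ℂ)}
    (hp : ∑ i, p.rep i ^ 5 = 5 * t * ∏ i, p.rep i)
    (hq : ∑ i, q.rep i ^ 5 = 5 * t * ∏ i, q.rep i) :
    (Finsupp.single ![p, q] 1 - Finsupp.single ![p, o5] 1 - Finsupp.single ![o5, q] 1 +
      Finsupp.single ![o5, o5] 1 + (Finsupp.single ![q, p] 1 -
        Finsupp.single ![q, o5] 1 - Finsupp.single ![o5, p] 1 + Finsupp.single ![o5, o5] 1) :
        (Fin 2 → ℙ ℂ (Fin 5 → ℂ)) →₀ ℚ) ∈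
      MPC.ratEquiv (J := fun _ : Fin 2 => Fin 5) ℚ (XD t 2) := by
  let P : Pt (m := 4) {dwork t} ℂ := ⟨p, mem_pt hp⟩
  let Q : Pt (m := 4) {dwork t} ℂ := ⟨q, mem_pt hq⟩
  let O : Pt (m := 4) {dwork t} ℂ := ⟨o5, mem_pt (o5_mem t)⟩
  have hs : ∀ A B : Pt (m := 4) {dwork t} ℂ,
      ((Finsupp.single A (1 : ℚ) - Finsupp.single B 1).sum fun _ r => r) = 0 := by
    intro A B
    rw [Finsupp.sum_sub_index (fun _ _ _ => rfl), Finsupp.sum_single_index rfl,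
      Finsupp.sum_single_index rfl, sub_self]
  have h1 := voisin_dwork (hs P O) (hs Q O)
  rw [ext2_sub, ext2_sub] at h1
  have h2 := to_XD h1
  have hv : ∀ A B : Pt (m := 4) {dwork t} ℂ,
      (fun l => ((![A, B] : Fin 2 → Pt (m := 4) {dwork t} ℂ) l).1) = ![A.1, B.1] := by
    intro A B
    funext l
    fin_cases l
    · rfl
    · rfl
  simp only [map_sub, map_add, Finsupp.lmapDomain_apply, Finsupp.mapDomain_single, hv] at h2
  exact h2

end

/-! ### Class functions -/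

variable {S₁ S₂ S₃ S₄ S₅ S₆ : Type} {Y : Fly S₁ S₂ S₃ S₄ S₅ S₆}

/-- the base point -/
def oD (Y : Fly S₁ S₂ S₃ S₄ S₅ S₆) (s : S₃) : Y.P (.inr (.inr (.inl s))) := ⟨fun _ => o5, o5_mem (Y.t s)⟩

variable {W : Type} [AddCommGroup W] [Module ℂ W]

/-- the point given by `p` -/
private def pD {s : S₃} (p : ℙ ℂ (Fin 5 → ℂ))
    (hp : ∑ i, p.rep i ^ 5 = 5 * Y.t s * ∏ i, p.rep i) : Y.P (.inr (.inr (.inl s))) := ⟨fun _ => p, hp⟩

private theorem kill1 {s : S₃} {f : Y.P (.inr (.inr (.inl s))) → W} (hf : Y.Cl1 f)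
    {z : (Fin 1 → ℙ ℂ (Fin 5 → ℂ)) →₀ ℚ}
    (hz : z ∈ MPC.ratEquiv (J := fun _ : Fin 1 => Fin 5) ℚ (XD (Y.t s) 1)) :
    (z.sum fun p c => (c : ℂ) • if h : p ∈ XD (Y.t s) 1 then f (pD (p 0) (h 0)) else 0) = 0 := by
  let _ : Module ℚ W := Module.compHom W (algebraMap ℚ ℂ)
  have h1 : MPC.ratEquiv (J := fun _ : Fin 1 => Fin 5) ℚ (XD (Y.t s) 1) ≤
      LinearMap.ker (Finsupp.linearCombination ℚ fun p : (Fin 1 → ℙ ℂ (Fin 5 → ℂ)) =>
        if h : p ∈ XD (Y.t s) 1 then f (pD (p 0) (h 0)) else 0) := by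
    refine Submodule.span_le.2 ?_
    rintro _ ⟨F, _, _, _, _, _, _, x, φ, hφ, hX, a, b, v, w, hv, hw, rfl⟩
    rw [SetLike.mem_coe, LinearMap.mem_ker, map_sum]
    have h2 := hf F (fun _ => x 0) (fun v => pD (φ v 0) (hX v 0)) (fun v _ => hφ v 0) a b v w
      hv hw
    rw [← h2]
    refine Finset.sum_congr rfl fun τ _ => ?_
    rw [map_sub, Finsupp.linearCombination_single, Finsupp.linearCombination_single, one_smul,
      one_smul, dif_pos (hX _), dif_pos (hX _)]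
  have h2 := h1 hz
  rw [LinearMap.mem_ker, Finsupp.linearCombination_apply] at h2
  exact h2

private theorem kill2 {s : S₃} {f : Y.P (.inr (.inr (.inl s))) → Y.P (.inr (.inr (.inl s))) → W}
    (hf : Y.Cl2 f) {z : (Fin 2 → ℙ ℂ (Fin 5 → ℂ)) →₀ ℚ}
    (hz : z ∈ MPC.ratEquiv (J := fun _ : Fin 2 => Fin 5) ℚ (XD (Y.t s) 2)) :
    (z.sum fun p c => (c : ℂ) •
      if h : p ∈ XD (Y.t s) 2 then f (pD (p 0) (h 0)) (pD (p 1) (h 1)) else 0) = 0 := by
  let _ : Module ℚ W := Module.compHom W (algebraMap ℚ ℂ)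
  have h1 : MPC.ratEquiv (J := fun _ : Fin 2 => Fin 5) ℚ (XD (Y.t s) 2) ≤
      LinearMap.ker (Finsupp.linearCombination ℚ fun p : (Fin 2 → ℙ ℂ (Fin 5 → ℂ)) =>
        if h : p ∈ XD (Y.t s) 2 then f (pD (p 0) (h 0)) (pD (p 1) (h 1)) else 0) := by
    refine Submodule.span_le.2 ?_
    rintro _ ⟨F, _, _, _, _, _, _, x, φ, hφ, hX, a, b, v, w, hv, hw, rfl⟩
    rw [SetLike.mem_coe, LinearMap.mem_ker, map_sum]
    have h2 := hf F (fun _ => x 0) (fun _ => x 1) (fun v => pD (φ v 0) (hX v 0))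
      (fun v => pD (φ v 1) (hX v 1)) (fun v _ => hφ v 0) (fun v _ => hφ v 1) a b v w hv hw
    rw [← h2]
    refine Finset.sum_congr rfl fun τ _ => ?_
    rw [map_sub, Finsupp.linearCombination_single, Finsupp.linearCombination_single, one_smul,
      one_smul, dif_pos (hX _), dif_pos (hX _)]
  have h2 := h1 hz
  rw [LinearMap.mem_ker, Finsupp.linearCombination_apply] at h2
  exact h2

theorem act₃ {s : S₃} {f : Y.P (.inr (.inr (.inl s))) → W} (hf : Y.Cl1 f) (g : DWK.Mon ℂ)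
    (p : Y.P (.inr (.inr (.inl s)))) :
    f (Y.act (.inr (.inr (.inl s))) g p) - f (oD Y s) =
      ((Equiv.Perm.sign g.π : ℤ) : ℂ) • (f p - f (oD Y s)) := by
  let _ : Module ℚ W := Module.compHom W (algebraMap ℚ ℂ)
  obtain ⟨q, hq⟩ : ∃ q : ℙ ℂ (Fin 5 → ℂ), q = p.1 () := ⟨_, rfl⟩
  have hm : ∑ i, q.rep i ^ 5 = 5 * Y.t s * ∏ i, q.rep i := by
    rw [hq]
    exact p.2
  have hp : p = pD q hm := Subtype.ext (funext fun _ => hq.symm)
  have hm' : ∑ i, (DWG.actP g q).rep i ^ 5 = 5 * Y.t s * ∏ i, (DWG.actP g q).rep i := by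
    have h1 := (Y.act (.inr (.inr (.inl s))) g p).2
    rw [hp] at h1
    exact h1
  have hp' : Y.act (.inr (.inr (.inl s))) g p = pD (DWG.actP g q) hm' := by
    rw [hp]
    rfl
  have h1 := kill1 hf (eq1 g hm)
  have h2 : ∀ z : (Fin 1 → ℙ ℂ (Fin 5 → ℂ)) →₀ ℚ, (z.sum fun p c => (c : ℂ) •
      if h : p ∈ XD (Y.t s) 1 then f (pD (p 0) (h 0)) else 0) =
      Finsupp.linearCombination ℚ (fun p : (Fin 1 → ℙ ℂ (Fin 5 → ℂ)) =>
        if h : p ∈ XD (Y.t s) 1 then f (pD (p 0) (h 0)) else 0) z := fun z =>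
    (Finsupp.linearCombination_apply ℚ z).symm
  have m1 : (fun _ : Fin 1 => DWG.actP g q) ∈ XD (Y.t s) 1 := fun _ => hm'
  have m2 : (fun _ : Fin 1 => o5) ∈ XD (Y.t s) 1 := fun _ => o5_mem _
  have m3 : (fun _ : Fin 1 => q) ∈ XD (Y.t s) 1 := fun _ => hm
  rw [h2, map_sub, map_sub, map_smul, map_sub] at h1
  simp only [Finsupp.linearCombination_single, one_smul] at h1
  rw [dif_pos m1, dif_pos m2, dif_pos m3] at h1
  rw [hp', hp]
  have h3 := sub_eq_zero.1 h1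
  refine h3.trans ?_
  change ((((Equiv.Perm.sign g.π : ℤ) : ℚ) : ℂ)) • (f (pD q hm) - f (oD Y s)) = _
  rw [Rat.cast_intCast]

theorem swap₃ {s : S₃} {f : Y.P (.inr (.inr (.inl s))) → Y.P (.inr (.inr (.inl s))) → W} (hf : Y.Cl2 f)
    (p q : Y.P (.inr (.inr (.inl s)))) :
    f p q - f (oD Y s) q - f p (oD Y s) + f (oD Y s) (oD Y s) =
      (-1 : ℂ) ^ 3 • (f q p - f (oD Y s) p - f q (oD Y s) + f (oD Y s) (oD Y s)) := by
  let _ : Module ℚ W := Module.compHom W (algebraMap ℚ ℂ)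
  obtain ⟨x, hx⟩ : ∃ x : ℙ ℂ (Fin 5 → ℂ), x = p.1 () := ⟨_, rfl⟩
  obtain ⟨y, hy⟩ : ∃ y : ℙ ℂ (Fin 5 → ℂ), y = q.1 () := ⟨_, rfl⟩
  have hx' : ∑ i, x.rep i ^ 5 = 5 * Y.t s * ∏ i, x.rep i := by
    rw [hx]
    exact p.2
  have hy' : ∑ i, y.rep i ^ 5 = 5 * Y.t s * ∏ i, y.rep i := by
    rw [hy]
    exact q.2
  have hp : p = pD x hx' := Subtype.ext (funext fun _ => hx.symm)
  have hq : q = pD y hy' := Subtype.ext (funext fun _ => hy.symm)
  have h1 := kill2 hf (eq2 hx' hy')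
  have h2 : ∀ z : (Fin 2 → ℙ ℂ (Fin 5 → ℂ)) →₀ ℚ, (z.sum fun p c => (c : ℂ) •
      if h : p ∈ XD (Y.t s) 2 then f (pD (p 0) (h 0)) (pD (p 1) (h 1)) else 0) =
      Finsupp.linearCombination ℚ (fun p : (Fin 2 → ℙ ℂ (Fin 5 → ℂ)) =>
        if h : p ∈ XD (Y.t s) 2 then f (pD (p 0) (h 0)) (pD (p 1) (h 1)) else 0) z := fun z =>
    (Finsupp.linearCombination_apply ℚ z).symm
  have hmem : ∀ {u w : ℙ ℂ (Fin 5 → ℂ)}, ∑ i, u.rep i ^ 5 = 5 * Y.t s * ∏ i, u.rep i →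
      ∑ i, w.rep i ^ 5 = 5 * Y.t s * ∏ i, w.rep i → ![u, w] ∈ XD (Y.t s) 2 := by
    intro u w hu hw i
    fin_cases i
    · exact hu
    · exact hw
  have ho := o5_mem (Y.t s)
  rw [h2] at h1
  simp only [map_sub, map_add, Finsupp.linearCombination_single, one_smul] at h1
  rw [dif_pos (hmem hx' hy'), dif_pos (hmem hx' ho), dif_pos (hmem ho hy'),
    dif_pos (hmem ho ho), dif_pos (hmem hy' hx'), dif_pos (hmem hy' ho),
    dif_pos (hmem ho hx')] at h1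
  rw [hp, hq]
  change f (pD x hx') (pD y hy') - f (pD x hx') (oD Y s) - f (oD Y s) (pD y hy') +
    f (oD Y s) (oD Y s) + (f (pD y hy') (pD x hx') - f (pD y hy') (oD Y s) -
      f (oD Y s) (pD x hx') + f (oD Y s) (oD Y s)) = 0 at h1
  have h3 : (-1 : ℂ) ^ 3 = -1 := by norm_num
  rw [h3, neg_one_smul, ← sub_eq_zero, ← h1]
  abel

end Pool.Agent.BBW
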