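import Pool.Agent.BBW.KOne
import Pool.Agent.BBW.KTwo
import Pool.Agent.BBW.KThree
import Pool.Agent.BBW.KFour
import Pool.Agent.BBW.KFive
import Pool.Agent.BBW.KSix

/-!
# The laws for the family
-/

set_option autoImplicit false

noncomputable section

namespace Pool.Agent.BBW

open Pool.Agent.BBX

open Pool.Agent.ZCyc Pool.Agent.BBM
open Pool.Agent.GBB (zeta psi)
open scoped LinearAlgebra.Projectivization Classical

variable {S₁ S₂ S₃ S₄ S₅ S₆ : Type} {Y : Fly S₁ S₂ S₃ S₄ S₅ S₆} [Fintype S₁] [Fintype S₂] [Fintype S₃] [Fintype S₄] [Fintype S₅] [Fintype S₆]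
  [∀ s, NeZero (Y.d s)] [∀ s i, NeZero (Y.M s i)]
  [∀ s i, NeZero ((Y.F s).M i)] [∀ s i, NeZero ((Y.Z s).M i)]
  [∀ s i, NeZero ((Y.V s).M i)] {W : Type} [AddCommGroup W] [Module ℂ W]

/-! ### Divisors of `L` -/

omit [Fintype S₃] [∀ s, NeZero (Y.d s)] [∀ s i, NeZero (Y.M s i)]
  [∀ s i, NeZero ((Y.F s).M i)] [∀ s i, NeZero ((Y.Z s).M i)]
  [∀ s i, NeZero ((Y.V s).M i)] in
theorem d_dvd (s : S₁) : Y.d s ∣ Y.L :=
  Dvd.dvd.mul_right (Dvd.dvd.mul_left (Finset.dvd_prod_of_mem Y.d (Finset.mem_univ s)) 2) _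

omit [Fintype S₃] [∀ s, NeZero (Y.d s)] [∀ s i, NeZero (Y.M s i)]
  [∀ s i, NeZero ((Y.F s).M i)] [∀ s i, NeZero ((Y.Z s).M i)]
  [∀ s i, NeZero ((Y.V s).M i)] in
theorem M_dvd (s : S₂) (i : Fin (Y.l s)) : Y.M s i ∣ Y.L :=
  Dvd.dvd.mul_left (Dvd.dvd.mul_right ((Finset.dvd_prod_of_mem (Y.M s) (Finset.mem_univ i)).trans
    (Finset.dvd_prod_of_mem (fun s => ∏ i, Y.M s i) (Finset.mem_univ s))) _) _

omit [Fintype S₃] [∀ s, NeZero (Y.d s)] [∀ s i, NeZero (Y.M s i)]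
  [∀ s i, NeZero ((Y.F s).M i)] [∀ s i, NeZero ((Y.Z s).M i)]
  [∀ s i, NeZero ((Y.V s).M i)] in
theorem M4_dvd (s : S₄) (i : Fin (Y.l₄ s)) : (Y.F s).M i ∣ Y.L :=
  Dvd.dvd.mul_left (Dvd.dvd.mul_left (Dvd.dvd.mul_right
    ((Finset.dvd_prod_of_mem (Y.F s).M (Finset.mem_univ i)).trans
      (Finset.dvd_prod_of_mem (fun s => ∏ i, (Y.F s).M i) (Finset.mem_univ s))) _) _) _

omit [Fintype S₃] [∀ s, NeZero (Y.d s)] [∀ s i, NeZero (Y.M s i)]
  [∀ s i, NeZero ((Y.F s).M i)] [∀ s i, NeZero ((Y.Z s).M i)]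
  [∀ s i, NeZero ((Y.V s).M i)] in
theorem M5_dvd (s : S₅) (i : Fin 3) : (Y.Z s).M i ∣ Y.L :=
  Dvd.dvd.mul_left (Dvd.dvd.mul_left (Dvd.dvd.mul_left (Dvd.dvd.mul_right
    ((Finset.dvd_prod_of_mem (Y.Z s).M (Finset.mem_univ i)).trans
      (Finset.dvd_prod_of_mem (fun s => ∏ i, (Y.Z s).M i) (Finset.mem_univ s))) _) _) _) _

omit [Fintype S₃] [∀ s, NeZero (Y.d s)] [∀ s i, NeZero (Y.M s i)]
  [∀ s i, NeZero ((Y.F s).M i)] [∀ s i, NeZero ((Y.Z s).M i)]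
  [∀ s i, NeZero ((Y.V s).M i)] in
theorem M6_dvd (s : S₆) (i : Fin 2) : (Y.V s).M i ∣ Y.L :=
  Dvd.dvd.mul_left (Dvd.dvd.mul_left (Dvd.dvd.mul_left (Dvd.dvd.mul_left
    ((Finset.dvd_prod_of_mem (Y.V s).M (Finset.mem_univ i)).trans
      (Finset.dvd_prod_of_mem (fun s => ∏ i, (Y.V s).M i) (Finset.mem_univ s))) _) _) _) _

/-! ### One point -/

omit [Fintype S₁] [Fintype S₂] [Fintype S₃] [Fintype S₄] [Fintype S₅] [Fintype S₆] in
theorem pr_true {s : S₃} (f : Y.P (.inr (.inr (.inl s))) → W) (p : Y.P (.inr (.inr (.inl s)))) :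
    Y.pr (.inr (.inr (.inl s))) true f p = f p - f (oD Y s) := by
  have h1 : Y.pr (.inr (.inr (.inl s))) true f p = ∑ κ : Bool, Y.wt (.inr (.inr (.inl s))) true κ •
      f (Y.av (.inr (.inr (.inl s))) κ p) := rfl
  rw [h1, Fintype.sum_bool]
  change (1 : ℂ) • f p + (-1 : ℂ) • f (oD Y s) = _
  rw [one_smul, neg_one_smul, sub_eq_add_neg]

omit [Fintype S₁] [Fintype S₂] [Fintype S₃] [Fintype S₄] [Fintype S₅] [Fintype S₆] in
theorem pr_false {s : S₃} (f : Y.P (.inr (.inr (.inl s))) → W) (p : Y.P (.inr (.inr (.inl s)))) :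
    Y.pr (.inr (.inr (.inl s))) false f p = f (oD Y s) := by
  have h1 : Y.pr (.inr (.inr (.inl s))) false f p = ∑ κ : Bool, Y.wt (.inr (.inr (.inl s))) false κ •
      f (Y.av (.inr (.inr (.inl s))) κ p) := rfl
  rw [h1, Fintype.sum_bool]
  change (0 : ℂ) • f p + (1 : ℂ) • f (oD Y s) = _
  rw [one_smul, zero_smul, zero_add]

omit [Fintype S₁] [Fintype S₂] [Fintype S₃] [Fintype S₄] [Fintype S₅] [Fintype S₆] in
theorem pr_act : ∀ (s : S₁ ⊕ S₂ ⊕ S₃ ⊕ S₄ ⊕ S₅ ⊕ S₆) (c : Y.K s) {f : Y.P s → W}, Y.Cl1 f → ∀ (g : Y.G s)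
    (p : Y.P s), Y.pr s c f (Y.act s g p) = Y.chi s c g • Y.pr s c f p
  | .inl s, c, f, _, g, p => pr_act₁ Y s c f g p
  | .inr (.inl s), c, f, _, g, p => pr_act₂ Y s c f g p
  | .inr (.inr (.inl s)), c, f, hf, g, p => by
    have h1 : ∀ c : Bool, Y.pr (.inr (.inr (.inl s))) c f (Y.act (.inr (.inr (.inl s))) g p) =
        Y.chi (.inr (.inr (.inl s))) c g • Y.pr (.inr (.inr (.inl s))) c f p := by
      intro c
      cases c with
      | true =>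
        rw [pr_true, pr_true]
        exact act₃ hf g p
      | false =>
        rw [pr_false, pr_false]
        change _ = (1 : ℂ) • _
        rw [one_smul]
    exact h1 c
  | .inr (.inr (.inr (.inl s))), c, f, _, g, p => pr_act₄ Y s c f g p
  | .inr (.inr (.inr (.inr (.inl s)))), c, f, _, g, p => pr_act₅ Y s c f g p
  | .inr (.inr (.inr (.inr (.inr s)))), c, f, _, g, p => pr_act₆ Y s c f g p

/-! ### Two points -/

omit [Fintype S₁] [Fintype S₂] [Fintype S₃] [Fintype S₄] [Fintype S₅] [Fintype S₆] in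
theorem pr2_true {s : S₃} (f : Y.P (.inr (.inr (.inl s))) → Y.P (.inr (.inr (.inl s))) → W)
    (p q : Y.P (.inr (.inr (.inl s)))) : Y.pr2 (.inr (.inr (.inl s))) (.inr (.inr (.inl s))) true true f p q =
      f p q - f (oD Y s) q - f p (oD Y s) + f (oD Y s) (oD Y s) := by
  have h1 : Y.pr2 (.inr (.inr (.inl s))) (.inr (.inr (.inl s))) true true f p q = ∑ κ : Bool, ∑ κ' : Bool,
      (Y.wt (.inr (.inr (.inl s))) true κ * Y.wt (.inr (.inr (.inl s))) true κ') •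
        f (Y.av (.inr (.inr (.inl s))) κ p) (Y.av (.inr (.inr (.inl s))) κ' q) := rfl
  rw [h1, Fintype.sum_bool, Fintype.sum_bool, Fintype.sum_bool]
  change ((1 : ℂ) * 1) • f p q + ((1 : ℂ) * (-1)) • f p (oD Y s) +
    (((-1 : ℂ) * 1) • f (oD Y s) q + ((-1 : ℂ) * (-1)) • f (oD Y s) (oD Y s)) = _
  module

omit [Fintype S₃] in
theorem pr_swap (hS : HYG.SwapAll ℂ) (hY : Y.Ok) : ∀ (s : S₁ ⊕ S₂ ⊕ S₃ ⊕ S₄ ⊕ S₅ ⊕ S₆) {t : ℕ}
    (b : Y.Form s), t.Coprime Y.L → ∀ {f : Y.P s → Y.P s → W}, Y.Cl2 f → ∀ p q : Y.P s,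
      Y.pr2 s s (Y.cj s t b) (Y.cj s t b) f p q =
        (-1 : ℂ) ^ Y.n s • Y.pr2 s s (Y.cj s t b) (Y.cj s t b) f q p
  | .inl s, t, b, ht, f, hf, p, q =>
    pr_swap₁ hY hf (Nat.Coprime.coprime_dvd_right (d_dvd s) ht) p q
  | .inr (.inl s), t, b, ht, f, hf, p, q => by
    refine pr_swap₂ hS hY hf _ (fun i => ?_) p q
    have hb : 0 < (b : {a : Fin (Y.l s) → ℕ // ∀ i, 0 < a i ∧ a i < Y.M s i}).1 i ∧
        (b : {a : Fin (Y.l s) → ℕ // ∀ i, 0 < a i ∧ a i < Y.M s i}).1 i < Y.M s i := b.2 i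
    change ¬ ((t * (b : {a : Fin (Y.l s) → ℕ // ∀ i, 0 < a i ∧ a i < Y.M s i}).1 i : ℕ) :
      ZMod (Y.M s i)) = 0
    rw [ZMod.natCast_eq_zero_iff]
    intro h
    have h1 : (Y.M s i).Coprime t :=
      (Nat.Coprime.coprime_dvd_right (M_dvd s i) ht).symm
    have h2 := Nat.le_of_dvd hb.1 (h1.dvd_of_dvd_mul_left h)
    omega
  | .inr (.inr (.inl s)), t, b, ht, f, hf, p, q => by
    change Y.pr2 (.inr (.inr (.inl s))) (.inr (.inr (.inl s))) true true f p q =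
      (-1 : ℂ) ^ 3 • Y.pr2 (.inr (.inr (.inl s))) (.inr (.inr (.inl s))) true true f q p
    rw [pr2_true, pr2_true]
    exact swap₃ hf p q
  | .inr (.inr (.inr (.inl s))), t, b, ht, f, hf, p, q => by
    refine pr_swap₄ hY hf _ (fun i => ?_) p q
    have hb : 0 < (b : {a : Fin (Y.l₄ s) → ℕ // ∀ i, 0 < a i ∧ a i < (Y.F s).M i}).1 i ∧
        (b : {a : Fin (Y.l₄ s) → ℕ // ∀ i, 0 < a i ∧ a i < (Y.F s).M i}).1 i < (Y.F s).M i :=
      b.2 i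
    change ¬ ((t * (b : {a : Fin (Y.l₄ s) → ℕ // ∀ i, 0 < a i ∧ a i < (Y.F s).M i}).1 i : ℕ) :
      ZMod ((Y.F s).M i)) = 0
    rw [ZMod.natCast_eq_zero_iff]
    intro h
    have h1 : ((Y.F s).M i).Coprime t :=
      (Nat.Coprime.coprime_dvd_right (M4_dvd s i) ht).symm
    have h2 := Nat.le_of_dvd hb.1 (h1.dvd_of_dvd_mul_left h)
    omega
  | .inr (.inr (.inr (.inr (.inl s)))), t, b, ht, f, hf, p, q => by
    refine pr_swap₅ hY hf _ (fun i => ?_) p q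
    have hb : 0 < (b : {a : Fin 3 → ℕ // ∀ i, 0 < a i ∧ a i < (Y.Z s).M i}).1 i ∧
        (b : {a : Fin 3 → ℕ // ∀ i, 0 < a i ∧ a i < (Y.Z s).M i}).1 i < (Y.Z s).M i :=
      b.2 i
    change ¬ ((t * (b : {a : Fin 3 → ℕ // ∀ i, 0 < a i ∧ a i < (Y.Z s).M i}).1 i : ℕ) :
      ZMod ((Y.Z s).M i)) = 0
    rw [ZMod.natCast_eq_zero_iff]
    intro h
    have h1 : ((Y.Z s).M i).Coprime t :=
      (Nat.Coprime.coprime_dvd_right (M5_dvd s i) ht).symm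
    have h2 := Nat.le_of_dvd hb.1 (h1.dvd_of_dvd_mul_left h)
    omega
  | .inr (.inr (.inr (.inr (.inr s)))), t, b, ht, f, hf, p, q => by
    refine pr_swap₆ hY hf _ (fun i => ?_) p q
    have hb : 0 < (b : {a : Fin 2 → ℕ // ∀ i, 0 < a i ∧ a i < (Y.V s).M i}).1 i ∧
        (b : {a : Fin 2 → ℕ // ∀ i, 0 < a i ∧ a i < (Y.V s).M i}).1 i < (Y.V s).M i :=
      b.2 i
    change ¬ ((t * (b : {a : Fin 2 → ℕ // ∀ i, 0 < a i ∧ a i < (Y.V s).M i}).1 i : ℕ) :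
      ZMod ((Y.V s).M i)) = 0
    rw [ZMod.natCast_eq_zero_iff]
    intro h
    have h1 : ((Y.V s).M i).Coprime t :=
      (Nat.Coprime.coprime_dvd_right (M6_dvd s i) ht).symm
    have h2 := Nat.le_of_dvd hb.1 (h1.dvd_of_dvd_mul_left h)
    omega

/-! ### The laws -/

variable {k : S₁ ⊕ S₂ ⊕ S₃ ⊕ S₄ ⊕ S₅ ⊕ S₆ → ℕ} {F : Pts Y.P k → W}

private theorem gen1 {S : Type} {𝒮 : Sys S} [Fintype S] {k : S → ℕ} {F : Pts 𝒮.P k → W}
    (I : DecidableEq (Idx k)) (c : ∀ i : Idx k, 𝒮.C i.1) (p : Pts 𝒮.P k) (i : Idx k)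
    (q q' : 𝒮.P i.1) (a a' : ℂ)
    (h : ∀ x : Pts 𝒮.P k,
      a • ∑ κ : 𝒮.K i.1, 𝒮.wt i.1 (c i) κ • F (Function.update x i (𝒮.av i.1 κ q)) =
        a' • ∑ κ : 𝒮.K i.1, 𝒮.wt i.1 (c i) κ • F (Function.update x i (𝒮.av i.1 κ q'))) :
    a • 𝒮.E c F (Function.update p i q) = a' • 𝒮.E c F (Function.update p i q') := by
  have hI : I = @Sigma.instDecidableEqSigma S (fun s => Fin (k s))
      (fun a b => Classical.propDecidable (a = b)) (fun s => instDecidableEqFin (k s)) :=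
    Subsingleton.elim _ _
  subst hI
  exact E_slot_congr c p i q q' a a' h

private theorem gen2 {S : Type} {𝒮 : Sys S} [Fintype S] {k : S → ℕ} {F : Pts 𝒮.P k → W}
    (I : DecidableEq (Idx k)) (c : ∀ i : Idx k, 𝒮.C i.1) (p : Pts 𝒮.P k) {i j : Idx k}
    (hij : i ≠ j) (q q' : 𝒮.P i.1) (r r' : 𝒮.P j.1) (a a' : ℂ)
    (h : ∀ x : Pts 𝒮.P k,
      a • ∑ κ : 𝒮.K i.1, ∑ κ' : 𝒮.K j.1, (𝒮.wt i.1 (c i) κ * 𝒮.wt j.1 (c j) κ') •
          F (Function.update (Function.update x i (𝒮.av i.1 κ q)) j (𝒮.av j.1 κ' r)) =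
        a' • ∑ κ : 𝒮.K i.1, ∑ κ' : 𝒮.K j.1, (𝒮.wt i.1 (c i) κ * 𝒮.wt j.1 (c j) κ') •
          F (Function.update (Function.update x i (𝒮.av i.1 κ q')) j (𝒮.av j.1 κ' r'))) :
    a • 𝒮.E c F (Function.update (Function.update p i q) j r) =
      a' • 𝒮.E c F (Function.update (Function.update p i q') j r') := by
  have hI : I = @Sigma.instDecidableEqSigma S (fun s => Fin (k s))
      (fun a b => Classical.propDecidable (a = b)) (fun s => instDecidableEqFin (k s)) :=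
    Subsingleton.elim _ _
  subst hI
  exact E_slot2_congr c p hij q q' r r' a a' h

private theorem upd_inst {ι : Type} {P : ι → Type} (I₁ I₂ : DecidableEq ι) (x : ∀ i, P i)
    (i : ι) (q : P i) : @Function.update ι P I₁ x i q = @Function.update ι P I₂ x i q := by
  rw [Subsingleton.elim I₁ I₂]

private theorem slot1 (c : ∀ i : Idx k, Y.K i.1) (p : Pts Y.P k) (i : Idx k) (q q' : Y.P i.1)
    (a a' : ℂ) (h : ∀ x : Pts Y.P k, a • Y.pr i.1 (c i) (fun q => F (Function.update x i q)) q =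
      a' • Y.pr i.1 (c i) (fun q => F (Function.update x i q)) q') :
    a • Y.sys.E c F (Function.update p i q) = a' • Y.sys.E c F (Function.update p i q') :=
  gen1 (𝒮 := Y.sys) _ c p i q q' a a' h

private theorem slot2 (c : ∀ i : Idx k, Y.K i.1) (p : Pts Y.P k) {i j : Idx k} (hij : i ≠ j)
    (q q' : Y.P i.1) (r r' : Y.P j.1) (a a' : ℂ)
    (h : ∀ x : Pts Y.P k,
      a • Y.pr2 i.1 j.1 (c i) (c j) (fun q r => F (Function.update (Function.update x i q) j r))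
        q r = a' • Y.pr2 i.1 j.1 (c i) (c j)
          (fun q r => F (Function.update (Function.update x i q) j r)) q' r') :
    a • Y.sys.E c F (Function.update (Function.update p i q) j r) =
      a' • Y.sys.E c F (Function.update (Function.update p i q') j r') :=
  gen2 (𝒮 := Y.sys) _ c p hij q q' r r' a a' h

theorem sys_eqv (hF : Y.sys.IsCl F) (c : ∀ i : Idx k, Y.K i.1) (p : Pts Y.P k) (i : Idx k)
    (g : Y.G i.1) : Y.sys.E c F (Function.update p i (Y.act i.1 g (p i))) =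
      Y.chi i.1 (c i) g • Y.sys.E c F p := by
  have h1 := slot1 (F := F) c p i (Y.act i.1 g (p i)) (p i) 1 (Y.chi i.1 (c i) g) fun x => by
    rw [one_smul]
    exact pr_act i.1 (c i) (IsCl.slot1 hF x i) g (p i)
  rwa [one_smul, Function.update_eq_self] at h1

omit [Fintype S₁] [Fintype S₂] [Fintype S₃] [Fintype S₄] [Fintype S₅] [Fintype S₆] [∀ s, NeZero (Y.d s)]
  [∀ s i, NeZero (Y.M s i)]
  [∀ s i, NeZero ((Y.F s).M i)] [∀ s i, NeZero ((Y.Z s).M i)]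
  [∀ s i, NeZero ((Y.V s).M i)] in
private theorem permP_swap (p : Pts Y.P k) (s : S₁ ⊕ S₂ ⊕ S₃ ⊕ S₄ ⊕ S₅ ⊕ S₆) {l₁ l₂ : Fin (k s)} (hl : l₁ ≠ l₂) :
    permP (Function.update (1 : ∀ s, Equiv.Perm (Fin (k s))) s (Equiv.swap l₁ l₂)) p =
      Function.update (Function.update p ⟨s, l₁⟩ (p ⟨s, l₂⟩)) ⟨s, l₂⟩ (p ⟨s, l₁⟩) := by
  funext i
  obtain ⟨s', l⟩ := i
  simp only [permP]
  by_cases hs : s' = s
  · subst hs
    rw [Function.update_self]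
    by_cases h2 : l = l₂
    · subst h2
      rw [Equiv.swap_apply_right, Function.update_self]
    · have h3 : (⟨s', l⟩ : Idx k) ≠ ⟨s', l₂⟩ := fun h => h2 (eq_of_heq (Sigma.mk.inj h).2)
      rw [Function.update_of_ne h3]
      by_cases h1 : l = l₁
      · subst h1
        rw [Equiv.swap_apply_left, Function.update_self]
      · have h4 : (⟨s', l⟩ : Idx k) ≠ ⟨s', l₁⟩ := fun h => h1 (eq_of_heq (Sigma.mk.inj h).2)
        rw [Equiv.swap_apply_of_ne_of_ne h1 h2, Function.update_of_ne h4]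
  · have h3 : (⟨s', l⟩ : Idx k) ≠ ⟨s, l₂⟩ := fun h => hs (Sigma.mk.inj h).1
    have h4 : (⟨s', l⟩ : Idx k) ≠ ⟨s, l₁⟩ := fun h => hs (Sigma.mk.inj h).1
    rw [Function.update_of_ne h3, Function.update_of_ne h4, Function.update_of_ne hs]
    rfl

theorem sys_swap (hS : HYG.SwapAll ℂ) (hY : Y.Ok) (hF : Y.sys.IsCl F)
    (c : ∀ i : Idx k, Y.K i.1) (p : Pts Y.P k) (s : S₁ ⊕ S₂ ⊕ S₃ ⊕ S₄ ⊕ S₅ ⊕ S₆) (l₁ l₂ : Fin (k s))
    (hl : l₁ ≠ l₂) (t : ℕ) (b : Y.Form s) (ht : t.Coprime Y.L) (h1 : c ⟨s, l₁⟩ = Y.cj s t b)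
    (h2 : c ⟨s, l₂⟩ = Y.cj s t b) :
    Y.sys.E c F (permP (Function.update (1 : ∀ s, Equiv.Perm (Fin (k s))) s
      (Equiv.swap l₁ l₂)) p) = (-1 : ℂ) ^ Y.n s • Y.sys.E c F p := by
  have hij : (⟨s, l₁⟩ : Idx k) ≠ ⟨s, l₂⟩ := fun h => hl (eq_of_heq (Sigma.mk.inj h).2)
  have h3 := slot2 (F := F) c p hij (p ⟨s, l₂⟩) (p ⟨s, l₁⟩) (p ⟨s, l₁⟩)
    (p ⟨s, l₂⟩) 1 ((-1 : ℂ) ^ Y.n s) fun x => by
      rw [one_smul]
      have h4 := pr_swap (W := W) hS hY s b ht (IsCl.slot2 hF x hij) (p ⟨s, l₂⟩) (p ⟨s, l₁⟩)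
      rw [← h1] at h4
      have h5 : c ⟨s, l₁⟩ = c ⟨s, l₂⟩ := h1.trans h2.symm
      refine Eq.trans ?_ (h4.trans ?_)
      · rw [h5]
      · rw [h5]
  rw [one_smul] at h3
  refine (congrArg (Y.sys.E c F) (permP_swap p s hl)).trans (h3.trans ?_)
  rw [Function.update_eq_self, Function.update_eq_self]

omit [Fintype S₃] in
/-- one natural number in place of `t`, which is prime to `L` -/
private theorem exists_T (Y : Fly S₁ S₂ S₃ S₄ S₅ S₆) [∀ s, NeZero (Y.d s)] [∀ s i, NeZero (Y.M s i)]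
  [∀ s i, NeZero ((Y.F s).M i)] [∀ s i, NeZero ((Y.Z s).M i)]
  [∀ s i, NeZero ((Y.V s).M i)]
    {k : S₁ ⊕ S₂ ⊕ S₃ ⊕ S₄ ⊕ S₅ ⊕ S₆ → ℕ} {t : ℕ} (ht : ∀ s : S₁, 0 < k (.inl s) → t.Coprime (Y.d s)) :
    ∃ T : ℕ, T.Coprime Y.L ∧ ∀ s : S₁, 0 < k (.inl s) →
      ((T : ℕ) : ZMod (Y.d s)) = (t : ZMod (Y.d s)) := by
  set D : ℕ := ∏ s ∈ Finset.univ.filter (fun s : S₁ => 0 < k (.inl s)), Y.d s with hD
  have hDL : D ∣ Y.L := by
    have h1 : D ∣ ∏ s, Y.d s := Finset.prod_dvd_prod_of_subset _ _ _ (Finset.filter_subset _ _)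
    exact Dvd.dvd.mul_right (Dvd.dvd.mul_left h1 2) _
  have hL : NeZero Y.L := ⟨(L_pos Y).ne'⟩
  have htD : t.Coprime D := by
    rw [hD, Nat.coprime_prod_right_iff]
    intro s hs
    exact ht s (Finset.mem_filter.1 hs).2
  obtain ⟨u, hu⟩ := ZMod.unitsMap_surjective hDL (ZMod.unitOfCoprime t htD)
  refine ⟨(u : ZMod Y.L).val, ZMod.val_coe_unit_coprime u, fun s hs => ?_⟩
  have h1 : ((u : ZMod Y.L).cast : ZMod D) = (t : ZMod D) := by
    have h2 := congrArg Units.val hu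
    rwa [ZMod.unitsMap_val, ZMod.coe_unitOfCoprime] at h2
  have hdD : Y.d s ∣ D := Finset.dvd_prod_of_mem _ (Finset.mem_filter.2 ⟨Finset.mem_univ _, hs⟩)
  rw [ZMod.cast_eq_val] at h1
  have h3 := (ZMod.natCast_eq_natCast_iff _ _ _).1 h1
  exact (ZMod.natCast_eq_natCast_iff _ _ _).2 (h3.of_dvd hdD)

omit [Fintype S₃] in
/-- exponents of a form of the second kind -/
private theorem exists_form (Y : Fly S₁ S₂ S₃ S₄ S₅ S₆) [∀ s, NeZero (Y.d s)] [∀ s i, NeZero (Y.M s i)]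
  [∀ s i, NeZero ((Y.F s).M i)] [∀ s i, NeZero ((Y.Z s).M i)]
  [∀ s i, NeZero ((Y.V s).M i)]
    {T : ℕ} (hT : T.Coprime Y.L) (s : S₂) (c : ∀ i : Fin (Y.l s), ZMod (Y.M s i))
    (hc : ∀ i, c i ≠ 0) : ∃ b : Y.Form (.inr (.inl s)), c = Y.cj (.inr (.inl s)) T b := by
  have h1 : ∀ i, ∃ a : ℕ, (0 < a ∧ a < Y.M s i) ∧ c i = ((T * a : ℕ) : ZMod (Y.M s i)) := by
    intro i
    have hTM : T.Coprime (Y.M s i) := Nat.Coprime.coprime_dvd_right (M_dvd s i) hT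
    let u : (ZMod (Y.M s i))ˣ := ZMod.unitOfCoprime T hTM
    have hu : (u : ZMod (Y.M s i)) = (T : ZMod (Y.M s i)) := ZMod.coe_unitOfCoprime T hTM
    refine ⟨(((u⁻¹ : (ZMod (Y.M s i))ˣ) : ZMod (Y.M s i)) * c i).val, ⟨?_, ZMod.val_lt _⟩, ?_⟩
    · rw [Nat.pos_iff_ne_zero, Ne, ZMod.val_eq_zero]
      intro h
      apply hc i
      have h2 := congrArg (fun x => (u : ZMod (Y.M s i)) * x) h
      simpa [← mul_assoc] using h2
    · rw [Nat.cast_mul, ZMod.natCast_zmod_val, ← hu, ← mul_assoc, Units.mul_inv, one_mul]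
  choose a ha using h1
  exact ⟨⟨a, fun i => (ha i).1⟩, funext fun i => (ha i).2⟩

omit [Fintype S₃] in
/-- exponents of a form of the fourth kind -/
private theorem exists_form4 (Y : Fly S₁ S₂ S₃ S₄ S₅ S₆) [∀ s, NeZero (Y.d s)] [∀ s i, NeZero (Y.M s i)]
  [∀ s i, NeZero ((Y.F s).M i)] [∀ s i, NeZero ((Y.Z s).M i)]
  [∀ s i, NeZero ((Y.V s).M i)]
    {T : ℕ} (hT : T.Coprime Y.L) (s : S₄) (c : ∀ i : Fin (Y.l₄ s), ZMod ((Y.F s).M i))
    (hc : ∀ i, c i ≠ 0) : ∃ b : Y.Form (.inr (.inr (.inr (.inl s)))), c = Y.cj (.inr (.inr (.inr (.inl s)))) T b := by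
  have h1 : ∀ i, ∃ a : ℕ, (0 < a ∧ a < (Y.F s).M i) ∧ c i = ((T * a : ℕ) : ZMod ((Y.F s).M i)) := by
    intro i
    have hTM : T.Coprime ((Y.F s).M i) := Nat.Coprime.coprime_dvd_right (M4_dvd s i) hT
    let u : (ZMod ((Y.F s).M i))ˣ := ZMod.unitOfCoprime T hTM
    have hu : (u : ZMod ((Y.F s).M i)) = (T : ZMod ((Y.F s).M i)) := ZMod.coe_unitOfCoprime T hTM
    refine ⟨(((u⁻¹ : (ZMod ((Y.F s).M i))ˣ) : ZMod ((Y.F s).M i)) * c i).val, ⟨?_, ZMod.val_lt _⟩, ?_⟩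
    · rw [Nat.pos_iff_ne_zero, Ne, ZMod.val_eq_zero]
      intro h
      apply hc i
      have h2 := congrArg (fun x => (u : ZMod ((Y.F s).M i)) * x) h
      simpa [← mul_assoc] using h2
    · rw [Nat.cast_mul, ZMod.natCast_zmod_val, ← hu, ← mul_assoc, Units.mul_inv, one_mul]
  choose a ha using h1
  exact ⟨⟨a, fun i => (ha i).1⟩, funext fun i => (ha i).2⟩

omit [Fintype S₃] in
/-- exponents of a form of the fifth kind -/
private theorem exists_form5 (Y : Fly S₁ S₂ S₃ S₄ S₅ S₆) [∀ s, NeZero (Y.d s)] [∀ s i, NeZero (Y.M s i)]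
  [∀ s i, NeZero ((Y.F s).M i)] [∀ s i, NeZero ((Y.Z s).M i)]
  [∀ s i, NeZero ((Y.V s).M i)]
    {T : ℕ} (hT : T.Coprime Y.L) (s : S₅) (c : ∀ i : Fin 3, ZMod ((Y.Z s).M i))
    (hc : ∀ i, c i ≠ 0) : ∃ b : Y.Form (.inr (.inr (.inr (.inr (.inl s))))), c = Y.cj (.inr (.inr (.inr (.inr (.inl s))))) T b := by
  have h1 : ∀ i, ∃ a : ℕ, (0 < a ∧ a < (Y.Z s).M i) ∧ c i = ((T * a : ℕ) : ZMod ((Y.Z s).M i)) := by
    intro i
    have hTM : T.Coprime ((Y.Z s).M i) := Nat.Coprime.coprime_dvd_right (M5_dvd s i) hT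
    let u : (ZMod ((Y.Z s).M i))ˣ := ZMod.unitOfCoprime T hTM
    have hu : (u : ZMod ((Y.Z s).M i)) = (T : ZMod ((Y.Z s).M i)) := ZMod.coe_unitOfCoprime T hTM
    refine ⟨(((u⁻¹ : (ZMod ((Y.Z s).M i))ˣ) : ZMod ((Y.Z s).M i)) * c i).val, ⟨?_, ZMod.val_lt _⟩, ?_⟩
    · rw [Nat.pos_iff_ne_zero, Ne, ZMod.val_eq_zero]
      intro h
      apply hc i
      have h2 := congrArg (fun x => (u : ZMod ((Y.Z s).M i)) * x) h
      simpa [← mul_assoc] using h2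
    · rw [Nat.cast_mul, ZMod.natCast_zmod_val, ← hu, ← mul_assoc, Units.mul_inv, one_mul]
  choose a ha using h1
  exact ⟨⟨a, fun i => (ha i).1⟩, funext fun i => (ha i).2⟩

omit [Fintype S₃] in
/-- exponents of a form of the sixth kind -/
private theorem exists_form6 (Y : Fly S₁ S₂ S₃ S₄ S₅ S₆) [∀ s, NeZero (Y.d s)] [∀ s i, NeZero (Y.M s i)]
  [∀ s i, NeZero ((Y.F s).M i)] [∀ s i, NeZero ((Y.Z s).M i)]
  [∀ s i, NeZero ((Y.V s).M i)]
    {T : ℕ} (hT : T.Coprime Y.L) (s : S₆) (c : ∀ i : Fin 2, ZMod ((Y.V s).M i))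
    (hc : ∀ i, c i ≠ 0) : ∃ b : Y.Form (.inr (.inr (.inr (.inr (.inr s))))), c = Y.cj (.inr (.inr (.inr (.inr (.inr s))))) T b := by
  have h1 : ∀ i, ∃ a : ℕ, (0 < a ∧ a < (Y.V s).M i) ∧ c i = ((T * a : ℕ) : ZMod ((Y.V s).M i)) := by
    intro i
    have hTM : T.Coprime ((Y.V s).M i) := Nat.Coprime.coprime_dvd_right (M6_dvd s i) hT
    let u : (ZMod ((Y.V s).M i))ˣ := ZMod.unitOfCoprime T hTM
    have hu : (u : ZMod ((Y.V s).M i)) = (T : ZMod ((Y.V s).M i)) := ZMod.coe_unitOfCoprime T hTM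
    refine ⟨(((u⁻¹ : (ZMod ((Y.V s).M i))ˣ) : ZMod ((Y.V s).M i)) * c i).val, ⟨?_, ZMod.val_lt _⟩, ?_⟩
    · rw [Nat.pos_iff_ne_zero, Ne, ZMod.val_eq_zero]
      intro h
      apply hc i
      have h2 := congrArg (fun x => (u : ZMod ((Y.V s).M i)) * x) h
      simpa [← mul_assoc] using h2
    · rw [Nat.cast_mul, ZMod.natCast_zmod_val, ← hu, ← mul_assoc, Units.mul_inv, one_mul]
  choose a ha using h1
  exact ⟨⟨a, fun i => (ha i).1⟩, funext fun i => (ha i).2⟩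

theorem sys_cases (hY : Y.Ok) (hF : Y.sys.IsCl F) (c : ∀ i : Idx k, Y.K i.1) :
    (∃ i : Idx k, ∀ (p : Pts Y.P k) (q : Y.P i.1),
      Y.sys.E c F (Function.update p i q) = Y.sys.E c F p) ∨
    (∀ p, Y.sys.E c F p = 0) ∨
    ∃ t : ℕ, t.Coprime Y.L ∧ ∃ b : ∀ i : Idx k, Y.Form i.1, ∀ i, c i = Y.cj i.1 t (b i) := by
  -- one slot of the second kind
  have hconst : ∀ (i : Idx k), (∀ (x : Pts Y.P k) (q q' : Y.P i.1),
      Y.pr i.1 (c i) (fun q => F (Function.update x i q)) q =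
        Y.pr i.1 (c i) (fun q => F (Function.update x i q)) q') →
      ∀ (p : Pts Y.P k) (q : Y.P i.1), Y.sys.E c F (Function.update p i q) = Y.sys.E c F p := by
    intro i hi p q
    have h1 := slot1 (F := F) c p i q (p i) 1 1 fun x => by
      rw [one_smul, one_smul]
      exact hi x q (p i)
    rwa [one_smul, one_smul, Function.update_eq_self] at h1
  have hzero : ∀ (i : Idx k), (∀ (x : Pts Y.P k) (q : Y.P i.1),
      Y.pr i.1 (c i) (fun q => F (Function.update x i q)) q = 0) →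
      ∀ p : Pts Y.P k, Y.sys.E c F p = 0 := by
    intro i hi p
    have h1 := slot1 (F := F) c p i (p i) (p i) 1 0 fun x => by
      rw [one_smul, zero_smul]
      exact hi x (p i)
    rwa [one_smul, zero_smul, Function.update_eq_self] at h1
  by_cases hall : ∀ (s : S₂) (l : Fin (k (.inr (.inl s)))) (j : Fin (Y.l s)),
      (c ⟨.inr (.inl s), l⟩ : ∀ i : Fin (Y.l s), ZMod (Y.M s i)) j ≠ 0
  swap
  · push Not at hall
    obtain ⟨s, l, j, hj⟩ := hall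
    by_cases h0 : ∀ i, (c ⟨.inr (.inl s), l⟩ : ∀ i : Fin (Y.l s), ZMod (Y.M s i)) i = 0
    · refine Or.inl ⟨⟨.inr (.inl s), l⟩, hconst ⟨.inr (.inl s), l⟩ fun x q q' => ?_⟩
      exact pr_const₂ hY (IsCl.slot1 hF x ⟨.inr (.inl s), l⟩) _ h0 q q'
    · push Not at h0
      obtain ⟨i, hi⟩ := h0
      refine Or.inr (Or.inl (hzero ⟨.inr (.inl s), l⟩ fun x q => ?_))
      exact pr_zero₂ hY (IsCl.slot1 hF x ⟨.inr (.inl s), l⟩) _ hi hj q
  by_cases hall4 : ∀ (s : S₄) (l : Fin (k (.inr (.inr (.inr (.inl s)))))) (j : Fin (Y.l₄ s)),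
      (c ⟨.inr (.inr (.inr (.inl s))), l⟩ : ∀ i : Fin (Y.l₄ s), ZMod ((Y.F s).M i)) j ≠ 0
  swap
  · push Not at hall4
    obtain ⟨s, l, j, hj⟩ := hall4
    by_cases h0 : ∀ i, (c ⟨.inr (.inr (.inr (.inl s))), l⟩ :
        ∀ i : Fin (Y.l₄ s), ZMod ((Y.F s).M i)) i = 0
    · refine Or.inl ⟨⟨.inr (.inr (.inr (.inl s))), l⟩, hconst ⟨.inr (.inr (.inr (.inl s))), l⟩
        fun x q q' => ?_⟩
      exact pr_const₄ hY (IsCl.slot1 hF x ⟨.inr (.inr (.inr (.inl s))), l⟩) _ h0 q q'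
    · push Not at h0
      obtain ⟨i, hi⟩ := h0
      refine Or.inr (Or.inl (hzero ⟨.inr (.inr (.inr (.inl s))), l⟩ fun x q => ?_))
      exact pr_zero₄ hY (IsCl.slot1 hF x ⟨.inr (.inr (.inr (.inl s))), l⟩) _ hi hj q
  by_cases hall5 : ∀ (s : S₅) (l : Fin (k (.inr (.inr (.inr (.inr (.inl s))))))) (j : Fin 3),
      (c ⟨.inr (.inr (.inr (.inr (.inl s)))), l⟩ : ∀ i : Fin 3, ZMod ((Y.Z s).M i)) j ≠ 0
  swap
  · push Not at hall5
    obtain ⟨s, l, j, hj⟩ := hall5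
    by_cases h0 : ∀ i, (c ⟨.inr (.inr (.inr (.inr (.inl s)))), l⟩ :
        ∀ i : Fin 3, ZMod ((Y.Z s).M i)) i = 0
    · refine Or.inl ⟨⟨.inr (.inr (.inr (.inr (.inl s)))), l⟩, hconst ⟨.inr (.inr (.inr (.inr (.inl s)))), l⟩
        fun x q q' => ?_⟩
      exact pr_const₅ hY (IsCl.slot1 hF x ⟨.inr (.inr (.inr (.inr (.inl s)))), l⟩) _ h0 q q'
    · push Not at h0
      obtain ⟨i, hi⟩ := h0
      refine Or.inr (Or.inl (hzero ⟨.inr (.inr (.inr (.inr (.inl s)))), l⟩ fun x q => ?_))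
      exact pr_zero₅ hY (IsCl.slot1 hF x ⟨.inr (.inr (.inr (.inr (.inl s)))), l⟩) _ hi hj q
  by_cases hall6 : ∀ (s : S₆) (l : Fin (k (.inr (.inr (.inr (.inr (.inr s))))))) (j : Fin 2),
      (c ⟨.inr (.inr (.inr (.inr (.inr s)))), l⟩ : ∀ i : Fin 2, ZMod ((Y.V s).M i)) j ≠ 0
  swap
  · push Not at hall6
    obtain ⟨s, l, j, hj⟩ := hall6
    by_cases h0 : ∀ i, (c ⟨.inr (.inr (.inr (.inr (.inr s)))), l⟩ :
        ∀ i : Fin 2, ZMod ((Y.V s).M i)) i = 0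
    · refine Or.inl ⟨⟨.inr (.inr (.inr (.inr (.inr s)))), l⟩, hconst ⟨.inr (.inr (.inr (.inr (.inr s)))), l⟩
        fun x q q' => ?_⟩
      exact pr_const₆ hY (IsCl.slot1 hF x ⟨.inr (.inr (.inr (.inr (.inr s)))), l⟩) _ h0 q q'
    · push Not at h0
      obtain ⟨i, hi⟩ := h0
      refine Or.inr (Or.inl (hzero ⟨.inr (.inr (.inr (.inr (.inr s)))), l⟩ fun x q => ?_))
      exact pr_zero₆ hY (IsCl.slot1 hF x ⟨.inr (.inr (.inr (.inr (.inr s)))), l⟩) _ hi hj q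
  by_cases htrue : ∀ (s : S₃) (l : Fin (k (.inr (.inr (.inl s))))),
      (c ⟨.inr (.inr (.inl s)), l⟩ : Bool) = true
  swap
  · push Not at htrue
    obtain ⟨s, l, hl⟩ := htrue
    have hl' : (c ⟨.inr (.inr (.inl s)), l⟩ : Bool) = false := by
      cases h : (c ⟨.inr (.inr (.inl s)), l⟩ : Bool) with
      | true => exact absurd h hl
      | false => rfl
    refine Or.inl ⟨⟨.inr (.inr (.inl s)), l⟩, hconst ⟨.inr (.inr (.inl s)), l⟩ fun x q q' => ?_⟩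
    have h1 : ∀ q, Y.pr (.inr (.inr (.inl s))) (c ⟨.inr (.inr (.inl s)), l⟩)
        (fun q => F (Function.update x (⟨.inr (.inr (.inl s)), l⟩ : Idx k) q)) q =
        F (Function.update x (⟨.inr (.inr (.inl s)), l⟩ : Idx k) (oD Y s)) := by
      intro q
      rw [show c ⟨.inr (.inr (.inl s)), l⟩ = false from hl']
      exact pr_false _ q
    exact (h1 q).trans (h1 q').symm
  rcases cases₁ hY hF c with h | h | ⟨t, ht, hc⟩
  · exact Or.inl h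
  · exact Or.inr (Or.inl h)
  obtain ⟨T, hTL, hTt⟩ := exists_T Y ht
  refine Or.inr (Or.inr ⟨T, hTL, ?_⟩)
  have hex : ∀ i : Idx k, ∃ b : Y.Form i.1, c i = Y.cj i.1 T b := by
    rintro ⟨s | s | s | s | s | s, l⟩
    · refine ⟨(), (hc ⟨s, l⟩).trans ?_⟩
      funext j
      exact (hTt s (Fin.pos l)).symm
    · exact exists_form Y hTL s _ (hall s l)
    · exact ⟨(), htrue s l⟩
    · exact exists_form4 Y hTL s _ (hall4 s l)
    · exact exists_form5 Y hTL s _ (hall5 s l)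
    · exact exists_form6 Y hTL s _ (hall6 s l)
  choose b hb using hex
  exact ⟨b, hb⟩

/-- The laws hold for the family. -/
theorem sys_ok (hS : HYG.SwapAll ℂ) (hY : Y.Ok) : Y.sys.Ok where
  L_pos := L_pos Y
  av_e := av_e Y
  sum_wt := sum_wt Y
  om_pow := om_pow Y
  chi_cj := chi_cj Y
  eqv hF c p i g :=
    (congrArg (Y.sys.E c _) (upd_inst _ _ p i _)).trans (sys_eqv hF c p i g)
  swap hF c p s l₁ l₂ hl t b ht h1 h2 :=
    (congrArg (fun u => Y.sys.E c _ (permP u p)) (upd_inst _ _ _ s _)).trans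
      (sys_swap hS hY hF c p s l₁ l₂ hl t b ht h1 h2)
  cases hF c := by
    rcases sys_cases hY hF c with ⟨i, hi⟩ | h
    · exact Or.inl ⟨i, fun p q => (congrArg (Y.sys.E c _) (upd_inst _ _ p i q)).trans (hi p q)⟩
    · exact Or.inr h

end Pool.Agent.BBW
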